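import Pool.Agent.Helper15.PE.Contr

/-!
# Connectedness of the linear extensions
-/

set_option autoImplicit false
open Classical

namespace Pool.Agent.Helper15.PE

open Pool.Agent.Helper14.J1 (IsLE desN)

/-- potential function -/
def Pot {N : ℕ} (Y Z : Equiv.Perm (Fin (N + 1))) : ℤ := ∑ q : Fin (N + 1), (q.val : ℤ) * (Y⁻¹ (Z q)).val

theorem pot_sw {N : ℕ} (Y Z : Equiv.Perm (Fin (N + 1))) (p : Fin N) :
    Pot Y (Z * sw p) = Pot Y Z + ((Y⁻¹ (Z p.castSucc)).val : ℤ) - (Y⁻¹ (Z p.succ)).val := by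
  unfold Pot
  have h1 : ∑ q : Fin (N + 1), (q.val : ℤ) * (Y⁻¹ ((Z * sw p) q)).val =
      ∑ q : Fin (N + 1), ((sw p q).val : ℤ) * (Y⁻¹ (Z q)).val := by
    rw [← Equiv.sum_comp (sw p)]
    refine Finset.sum_congr rfl fun q _ => ?_
    rw [Equiv.Perm.mul_apply, sw_sw]
  rw [h1]
  have h2 : ∑ q : Fin (N + 1), ((sw p q).val : ℤ) * (Y⁻¹ (Z q)).val - ∑ q : Fin (N + 1), (q.val : ℤ) * (Y⁻¹ (Z q)).val =
      ((Y⁻¹ (Z p.castSucc)).val : ℤ) - (Y⁻¹ (Z p.succ)).val := by
    rw [← Finset.sum_sub_distrib]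
    have h3 : ∀ q : Fin (N + 1), ((sw p q).val : ℤ) * (Y⁻¹ (Z q)).val - (q.val : ℤ) * (Y⁻¹ (Z q)).val =
        (if q = p.castSucc then ((Y⁻¹ (Z p.castSucc)).val : ℤ) else 0) -
          (if q = p.succ then ((Y⁻¹ (Z p.succ)).val : ℤ) else 0) := by
      intro q
      have hne : p.castSucc ≠ p.succ := fun h => by
        have := congrArg Fin.val h
        simp at this
      by_cases ha : q = p.castSucc
      · subst ha
        rw [sw_castSucc, if_pos rfl, if_neg hne, Fin.val_succ, Fin.val_castSucc]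
        push_cast
        ring
      · by_cases hb : q = p.succ
        · subst hb
          rw [sw_succ, if_neg (Ne.symm hne), if_pos rfl, Fin.val_succ, Fin.val_castSucc]
          push_cast
          ring
        · rw [if_neg ha, if_neg hb]
          have : sw p q = q := Equiv.swap_apply_of_ne_of_ne ha hb
          rw [this]
          ring
    rw [Finset.sum_congr rfl fun q _ => h3 q, Finset.sum_sub_distrib, Finset.sum_ite_eq' , Finset.sum_ite_eq',
      if_pos (Finset.mem_univ _), if_pos (Finset.mem_univ _)]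
  linarith

theorem hConn : StConn := by
  intro N le f hf X Y
  -- maximise the potential
  obtain ⟨Z, hZ, hmax⟩ : ∃ Z : LX le, f Z = f X ∧ ∀ Z' : LX le, f Z' = f X → Pot Y.1 Z'.1 ≤ Pot Y.1 Z.1 := by
    have hne : (Finset.univ.filter (fun Z : LX le => f Z = f X)).Nonempty :=
      ⟨X, Finset.mem_filter.2 ⟨Finset.mem_univ _, rfl⟩⟩
    obtain ⟨Z, hZ, h⟩ := Finset.exists_max_image _ (fun Z : LX le => Pot Y.1 Z.1) hne
    exact ⟨Z, (Finset.mem_filter.1 hZ).2, fun Z' hZ' => h Z' (Finset.mem_filter.2 ⟨Finset.mem_univ _, hZ'⟩)⟩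
  by_cases hmono : ∀ p : Fin N, Y.1⁻¹ (Z.1 p.castSucc) < Y.1⁻¹ (Z.1 p.succ)
  · have hsm : StrictMono (fun q : Fin (N + 1) => Y.1⁻¹ (Z.1 q)) := Fin.strictMono_iff_lt_succ.2 hmono
    have hid : ∀ q, Y.1⁻¹ (Z.1 q) = q := by
      intro q
      have h1 : (Y.1⁻¹ * Z.1) = 1 := by
        have hle : ∀ q : Fin (N + 1), q ≤ (Y.1⁻¹ * Z.1) q := fun q => hsm.le_apply
        have hle' : ∀ q : Fin (N + 1), (Y.1⁻¹ * Z.1) q ≤ q := fun q => hsm.apply_le
        ext q
        exact congrArg Fin.val (le_antisymm (hle' q) (hle q))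
      exact congrArg (fun σ : Equiv.Perm (Fin (N + 1)) => σ q) h1
    have hZY : Z = Y := by
      apply Subtype.ext
      ext q
      have := congrArg Y.1 (hid q)
      rw [← Equiv.Perm.mul_apply, mul_inv_cancel, Equiv.Perm.one_apply] at this
      rw [this]
    rw [← hZ, hZY]
  · exfalso
    push Not at hmono
    obtain ⟨p, hp⟩ := hmono
    have hne : Y.1⁻¹ (Z.1 p.succ) ≠ Y.1⁻¹ (Z.1 p.castSucc) := by
      intro h
      have h2 := Z.1.injective (Y.1⁻¹.injective h)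
      have := congrArg Fin.val h2
      simp at this
    have hlt : Y.1⁻¹ (Z.1 p.succ) < Y.1⁻¹ (Z.1 p.castSucc) := lt_of_le_of_ne hp hne
    have hnle : ¬ le (Z.1 p.castSucc) (Z.1 p.succ) := by
      intro hle
      have h1 := Y.2 (Y.1⁻¹ (Z.1 p.castSucc)) (Y.1⁻¹ (Z.1 p.succ))
      have h2 : ∀ a, Y.1 (Y.1⁻¹ a) = a := fun a => by
        rw [← Equiv.Perm.mul_apply, mul_inv_cancel, Equiv.Perm.one_apply]
      rw [h2, h2] at h1
      have h3 := h1 hle (fun h => hne (by rw [h]))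
      exact absurd h3 (not_lt.2 hlt.le)
    have h4 := hmax (mv le p Z) (by rw [hf, hZ])
    rw [mv_pos hnle, pot_sw] at h4
    have h5 : (Y.1⁻¹ (Z.1 p.succ)).val < (Y.1⁻¹ (Z.1 p.castSucc)).val := hlt
    omega

end Pool.Agent.Helper15.PE
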