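import Pool.Agent.Helper15.PE.St

/-!
# The operator of Bubley and Dyer contracts the Lipschitz constant
-/

set_option autoImplicit false
open Classical

namespace Pool.Agent.Helper15.PE

open Pool.Agent.Helper14.J1 (IsLE desN)

variable {N : ℕ} {le : Fin (N + 1) → Fin (N + 1) → Prop}

theorem sw_castSucc (p : Fin N) : sw p p.castSucc = p.succ := Equiv.swap_apply_left _ _

theorem sw_succ (p : Fin N) : sw p p.succ = p.castSucc := Equiv.swap_apply_right _ _

theorem sw_of_ne (p : Fin N) {i : Fin (N + 1)} (h1 : i.val ≠ p.val) (h2 : i.val ≠ p.val + 1) : sw p i = i := by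
  refine Equiv.swap_apply_of_ne_of_ne (fun h => h1 ?_) (fun h => h2 ?_)
  · rw [h]; rfl
  · rw [h]; rfl

theorem sw_sw (p : Fin N) (i : Fin (N + 1)) : sw p (sw p i) = i := Equiv.swap_apply_self _ _ _

theorem sw_mul_sw (p : Fin N) : sw p * sw p = 1 := Equiv.swap_mul_self _ _

theorem sw_val (p : Fin N) (i : Fin (N + 1)) :
    (sw p i).val = if i.val = p.val then p.val + 1 else if i.val = p.val + 1 then p.val else i.val := by
  by_cases h1 : i.val = p.val
  · have : i = p.castSucc := Fin.ext h1
    rw [if_pos h1, this, sw_castSucc]; rfl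
  · by_cases h2 : i.val = p.val + 1
    · have : i = p.succ := Fin.ext h2
      rw [if_neg h1, if_pos h2, this, sw_succ]; rfl
    · rw [if_neg h1, if_neg h2, sw_of_ne p h1 h2]

/-- the exchange is allowed iff the two letters are not related -/
theorem isLE_sw {σ : Equiv.Perm (Fin (N + 1))} (h : IsLE le σ) (p : Fin N) :
    IsLE le (σ * sw p) ↔ ¬ le (σ p.castSucc) (σ p.succ) := by
  constructor
  · intro h1 h2
    have h3 := h1 p.succ p.castSucc
    rw [Equiv.Perm.mul_apply, Equiv.Perm.mul_apply, sw_succ, sw_castSucc] at h3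
    have h4 : σ p.castSucc ≠ σ p.succ := by
      intro h5
      have h6 := congrArg Fin.val (σ.injective h5)
      simp at h6
    have h5 := Fin.lt_def.1 (h3 h2 h4)
    simp at h5
  · intro h1 i j h2 h3
    rw [Equiv.Perm.mul_apply, Equiv.Perm.mul_apply] at h2 h3
    have h4 := Fin.lt_def.1 (h _ _ h2 h3)
    have h5 : i ≠ j := fun h => h3 (by rw [h])
    have h5' : i.val ≠ j.val := fun h => h5 (Fin.ext h)
    by_contra h6
    have h7 : j.val < i.val := by
      have := fun h => h6 (Fin.lt_def.2 h)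
      omega
    rw [sw_val, sw_val] at h4
    have h8 : j.val = p.val ∧ i.val = p.val + 1 := by
      split_ifs at h4 <;> omega
    have e1 : j = p.castSucc := Fin.ext h8.1
    have e2 : i = p.succ := Fin.ext h8.2
    rw [e1, e2, sw_castSucc, sw_succ] at h2
    exact h1 h2

theorem mv_pos {p : Fin N} {σ : LX le} (h : ¬ le (σ.1 p.castSucc) (σ.1 p.succ)) :
    (mv le p σ).1 = σ.1 * sw p := by
  unfold mv
  rw [dif_pos ((isLE_sw σ.2 p).2 h)]

theorem mv_neg {p : Fin N} {σ : LX le} (h : le (σ.1 p.castSucc) (σ.1 p.succ)) :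
    mv le p σ = σ := by
  unfold mv
  rw [dif_neg (fun h1 => (isLE_sw σ.2 p).1 h1 h)]

theorem lip_abs {L : ℝ} {f : LX le → ℝ} (hf : Lip le L f) (X Y : LX le) (u v : Fin (N + 1)) (huv : u ≠ v)
    (h : Y.1 = X.1 * Equiv.swap u v) : |f X - f Y| ≤ L * |(v.val : ℝ) - u.val| := by
  rcases lt_or_gt_of_ne huv with h1 | h1
  · have h2 : (u.val : ℝ) < v.val := by exact_mod_cast h1
    rw [abs_of_pos (sub_pos.2 h2)]
    exact hf X Y u v h1 h
  · have h2 : (v.val : ℝ) < u.val := by exact_mod_cast h1
    rw [abs_of_neg (sub_neg.2 h2), neg_sub]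
    rw [Equiv.swap_comm] at h
    exact hf X Y v u h1 h

theorem lip_mv {L : ℝ} {f : LX le → ℝ} (hL : 0 ≤ L) (hf : Lip le L f) (p : Fin N) (X : LX le) :
    |f X - f (mv le p X)| ≤ L := by
  by_cases h : le (X.1 p.castSucc) (X.1 p.succ)
  · rw [mv_neg h, sub_self, abs_zero]; exact hL
  · have h1 := hf X (mv le p X) p.castSucc p.succ (Fin.lt_def.2 (by simp)) (mv_pos h)
    have h2 : ((p.succ : Fin (N + 1)).val : ℝ) - (p.castSucc : Fin (N + 1)).val = 1 := by
      simp
    rwa [h2, mul_one] at h1

theorem swap_sw (p : Fin N) (i j : Fin (N + 1)) :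
    Equiv.swap i j * sw p = sw p * Equiv.swap (sw p i) (sw p j) := by
  have h := Equiv.swap_apply_apply (sw p) i j
  rw [h]
  have h1 : (sw p)⁻¹ = sw p := by
    rw [inv_eq_iff_mul_eq_one]; exact sw_mul_sw p
  rw [h1, ← mul_assoc, ← mul_assoc, sw_mul_sw, one_mul]

/-- the correction term -/
noncomputable def ee (i j : Fin (N + 1)) (p : Fin N) : ℝ :=
  (if p.val + 1 = i.val then 1 else 0) - (if p.val = i.val then 1 else 0)
    - (if p.val + 1 = j.val then 1 else 0) + (if p.val = j.val then 1 else 0)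

theorem step {L : ℝ} {f : LX le → ℝ} (hL : 0 ≤ L) (hf : Lip le L f) (X Y : LX le) (i j : Fin (N + 1)) (hij : i < j)
    (h : Y.1 = X.1 * Equiv.swap i j) (p : Fin N) :
    (f X + f (mv le p X)) - (f Y + f (mv le p Y)) ≤ L * (2 * ((j.val : ℝ) - i.val) + ee i j p) := by
  have hij' : i.val < j.val := Fin.lt_def.1 hij
  have hYi : Y.1 i = X.1 j := by rw [h, Equiv.Perm.mul_apply, Equiv.swap_apply_left]
  have hYj : Y.1 j = X.1 i := by rw [h, Equiv.Perm.mul_apply, Equiv.swap_apply_right]
  have hYq : ∀ q : Fin (N + 1), q.val ≠ i.val → q.val ≠ j.val → Y.1 q = X.1 q := by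
    intro q h1 h2
    rw [h, Equiv.Perm.mul_apply, Equiv.swap_apply_of_ne_of_ne (fun h3 => h1 (by rw [h3])) (fun h3 => h2 (by rw [h3]))]
  have hXY := (abs_le.1 (hf X Y i j hij h)).2
  -- both allowed
  have both : ¬ le (X.1 p.castSucc) (X.1 p.succ) → ¬ le (Y.1 p.castSucc) (Y.1 p.succ) →
      f (mv le p X) - f (mv le p Y) ≤ L * |((sw p j).val : ℝ) - (sw p i).val| := by
    intro h1 h2
    have h3 : (mv le p Y).1 = (mv le p X).1 * Equiv.swap (sw p i) (sw p j) := by
      rw [mv_pos h1, mv_pos h2, h, mul_assoc, mul_assoc, swap_sw]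
    have h4 : sw p i ≠ sw p j := fun h5 => (ne_of_lt hij) ((sw p).injective h5)
    exact (abs_le.1 (lip_abs hf _ _ _ _ h4 h3)).2
  have mX := abs_le.1 (lip_mv hL hf p X)
  have mY := abs_le.1 (lip_mv hL hf p Y)
  have pos_i : ∀ {a b : Fin (N + 1)}, le (X.1 a) (X.1 b) → a ≠ b → a.val < b.val := by
    intro a b h1 h2
    exact Fin.lt_def.1 (X.2 a b h1 (fun h3 => h2 (X.1.injective h3)))
  have pos_j : ∀ {a b : Fin (N + 1)}, le (Y.1 a) (Y.1 b) → a ≠ b → a.val < b.val := by
    intro a b h1 h2
    exact Fin.lt_def.1 (Y.2 a b h1 (fun h3 => h2 (Y.1.injective h3)))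
  have hcs : (p.castSucc : Fin (N + 1)).val = p.val := rfl
  have hsu : (p.succ : Fin (N + 1)).val = p.val + 1 := Fin.val_succ p
  -- the five cases
  by_cases c1 : p.val + 1 = i.val
  · -- p + 1 = i
    have hei : ee i j p = 1 := by
      unfold ee
      rw [if_pos c1, if_neg (by omega), if_neg (by omega), if_neg (by omega)]; norm_num
    rw [hei]
    have ei : i = p.succ := Fin.ext (by rw [hsu]; omega)
    by_cases a1 : le (X.1 p.castSucc) (X.1 p.succ)
    · rw [mv_neg a1]
      by_cases a2 : le (Y.1 p.castSucc) (Y.1 p.succ)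
      · rw [mv_neg a2]; nlinarith
      · nlinarith [mY.1, mY.2]
    · by_cases a2 : le (Y.1 p.castSucc) (Y.1 p.succ)
      · rw [mv_neg a2]; nlinarith [mX.1, mX.2]
      · have h5 := both a1 a2
        have h6 : (sw p i).val = p.val := by rw [ei, sw_succ]; rfl
        have h7 : (sw p j).val = j.val := by rw [sw_of_ne p (by omega) (by omega)]
        rw [h6, h7] at h5
        have h8 : (p.val : ℝ) = i.val - 1 := by
          have : (i.val : ℝ) = p.val + 1 := by exact_mod_cast c1.symm
          linarith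
        have h9 : (i.val : ℝ) < j.val := by exact_mod_cast hij'
        rw [h8, abs_of_pos (by linarith)] at h5
        nlinarith
  by_cases c2 : p.val = j.val
  · -- p = j
    have hei : ee i j p = 1 := by
      unfold ee
      rw [if_neg c1, if_neg (by omega), if_neg (by omega), if_pos c2]; norm_num
    rw [hei]
    have ej : j = p.castSucc := Fin.ext (by rw [hcs]; omega)
    by_cases a1 : le (X.1 p.castSucc) (X.1 p.succ)
    · rw [mv_neg a1]
      by_cases a2 : le (Y.1 p.castSucc) (Y.1 p.succ)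
      · rw [mv_neg a2]; nlinarith
      · nlinarith [mY.1, mY.2]
    · by_cases a2 : le (Y.1 p.castSucc) (Y.1 p.succ)
      · rw [mv_neg a2]; nlinarith [mX.1, mX.2]
      · have h5 := both a1 a2
        have h6 : (sw p i).val = i.val := by rw [sw_of_ne p (by omega) (by omega)]
        have h7 : (sw p j).val = p.val + 1 := by rw [ej, sw_castSucc]; exact hsu
        rw [h6, h7] at h5
        have h8 : ((p.val + 1 : ℕ) : ℝ) = j.val + 1 := by
          rw [c2]; push_cast; ring
        have h9 : (i.val : ℝ) < j.val := by exact_mod_cast hij'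
        rw [h8, abs_of_pos (by linarith)] at h5
        nlinarith
  by_cases c3 : p.val = i.val
  · by_cases c4 : p.val + 1 = j.val
    · -- p = i, p + 1 = j
      have hei : ee i j p = -2 := by
        unfold ee
        rw [if_neg c1, if_pos c3, if_pos c4, if_neg c2]; norm_num
      rw [hei]
      have ei : i = p.castSucc := Fin.ext (by rw [hcs]; omega)
      have ej : j = p.succ := Fin.ext (by rw [hsu]; omega)
      have hsw : Equiv.swap i j = sw p := by rw [ei, ej]; rfl
      have a1 : ¬ le (X.1 p.castSucc) (X.1 p.succ) := by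
        rw [← isLE_sw X.2 p, ← hsw, ← h]; exact Y.2
      have a2 : ¬ le (Y.1 p.castSucc) (Y.1 p.succ) := by
        rw [← isLE_sw Y.2 p, h, hsw, mul_assoc, sw_mul_sw, mul_one]; exact X.2
      have e1 : mv le p X = Y := Subtype.ext (by rw [mv_pos a1, ← hsw, ← h])
      have e2 : mv le p Y = X := Subtype.ext (by rw [mv_pos a2, h, hsw, mul_assoc, sw_mul_sw, mul_one])
      rw [e1, e2]
      have h9 : (j.val : ℝ) - i.val = 1 := by
        rw [← c3, ← c4]; push_cast; ring
      rw [h9]
      linarith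
    · -- p = i, p + 1 < j
      have hei : ee i j p = -1 := by
        unfold ee
        rw [if_neg c1, if_pos c3, if_neg c4, if_neg c2]; norm_num
      rw [hei]
      have ei : i = p.castSucc := Fin.ext (by rw [hcs]; omega)
      have hq : Y.1 p.succ = X.1 p.succ := hYq _ (by rw [hsu]; omega) (by rw [hsu]; exact c4)
      have a1 : ¬ le (X.1 p.castSucc) (X.1 p.succ) := by
        intro h5
        rw [← ei, ← hYj, ← hq] at h5
        have h6 := pos_j h5 (fun h7 => c4 (by rw [h7, hsu]))
        rw [hsu] at h6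
        omega
      have a2 : ¬ le (Y.1 p.castSucc) (Y.1 p.succ) := by
        intro h5
        rw [← ei, hYi, hq] at h5
        have h6 := pos_i h5 (fun h7 => c4 (by rw [h7, hsu]))
        rw [hsu] at h6
        omega
      have h5 := both a1 a2
      have h6 : (sw p i).val = p.val + 1 := by rw [ei, sw_castSucc]; exact hsu
      have h7 : (sw p j).val = j.val := by rw [sw_of_ne p (by omega) (by omega)]
      rw [h6, h7] at h5
      have h8 : ((p.val + 1 : ℕ) : ℝ) = i.val + 1 := by
        rw [c3]; push_cast; ring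
      have h9 : (i.val : ℝ) + 1 < j.val := by
        have : i.val + 1 < j.val := by omega
        exact_mod_cast this
      rw [h8, abs_of_pos (by linarith)] at h5
      nlinarith
  by_cases c4 : p.val + 1 = j.val
  · -- p + 1 = j, i < p
    have hei : ee i j p = -1 := by
      unfold ee
      rw [if_neg c1, if_neg c3, if_pos c4, if_neg c2]; norm_num
    rw [hei]
    have ej : j = p.succ := Fin.ext (by rw [hsu]; omega)
    have hq : Y.1 p.castSucc = X.1 p.castSucc := hYq _ (by rw [hcs]; exact c3) (by rw [hcs]; exact c2)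
    have hne : p.castSucc ≠ i := fun h7 => c3 (by rw [← h7, hcs])
    have a1 : ¬ le (X.1 p.castSucc) (X.1 p.succ) := by
      intro h5
      rw [← ej, ← hYi, ← hq] at h5
      have h6 := pos_j h5 hne
      rw [hcs] at h6
      omega
    have a2 : ¬ le (Y.1 p.castSucc) (Y.1 p.succ) := by
      intro h5
      rw [← ej, hYj, hq] at h5
      have h6 := pos_i h5 hne
      rw [hcs] at h6
      omega
    have h5 := both a1 a2
    have h6 : (sw p i).val = i.val := by rw [sw_of_ne p (by omega) (by omega)]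
    have h7 : (sw p j).val = p.val := by rw [ej, sw_succ]; rfl
    rw [h6, h7] at h5
    have h8 : (p.val : ℝ) = j.val - 1 := by
      have : (j.val : ℝ) = p.val + 1 := by exact_mod_cast c4.symm
      linarith
    have h9 : (i.val : ℝ) + 1 < j.val := by
      have : i.val + 1 < j.val := by omega
      exact_mod_cast this
    rw [h8, abs_of_pos (by linarith)] at h5
    nlinarith
  · -- p is away from i and j
    have hei : ee i j p = 0 := by
      unfold ee
      rw [if_neg c1, if_neg c3, if_neg c4, if_neg c2]; norm_num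
    rw [hei]
    have q1 : Y.1 p.castSucc = X.1 p.castSucc := hYq _ (by rw [hcs]; exact c3) (by rw [hcs]; exact c2)
    have q2 : Y.1 p.succ = X.1 p.succ := hYq _ (by rw [hsu]; exact c1) (by rw [hsu]; exact c4)
    by_cases a1 : le (X.1 p.castSucc) (X.1 p.succ)
    · have a2 : le (Y.1 p.castSucc) (Y.1 p.succ) := by rw [q1, q2]; exact a1
      rw [mv_neg a1, mv_neg a2]
      nlinarith
    · have a2 : ¬ le (Y.1 p.castSucc) (Y.1 p.succ) := by rw [q1, q2]; exact a1
      have h5 := both a1 a2
      rw [sw_of_ne p (fun h => c3 h.symm) (fun h => c1 h.symm), sw_of_ne p (fun h => c2 h.symm) (fun h => c4 h.symm)] at h5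
      have h9 : (i.val : ℝ) < j.val := by exact_mod_cast hij'
      rw [abs_of_pos (by linarith)] at h5
      nlinarith

theorem sum_wt_aux (M : ℕ) (x : ℝ) :
    ∑ p ∈ Finset.range M, ((p : ℝ) + 1) * (x - p) = x * (M * (M + 1) / 2) - ((M : ℝ) - 1) * M * (M + 1) / 3 := by
  induction M with
  | zero => simp
  | succ M ih => rw [Finset.sum_range_succ, ih]; push_cast; ring

theorem sum_wt (N : ℕ) : ∑ p : Fin N, wt p = KK N := by
  unfold wt KK
  rw [Fin.sum_univ_eq_sum_range (fun p => ((p : ℝ) + 1) * ((N : ℝ) - p)), sum_wt_aux]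
  ring

theorem wt_nonneg (p : Fin N) : 0 ≤ wt p := by
  unfold wt
  have : (p.val : ℝ) < N := by exact_mod_cast p.2
  have h2 : (0 : ℝ) ≤ p.val := Nat.cast_nonneg _
  exact mul_nonneg (by linarith) (by linarith)

theorem sum_ite_eq' (i : ℕ) (hi : i ≤ N) :
    ∑ p : Fin N, wt p * (if p.val = i then (1 : ℝ) else 0) = ((i : ℝ) + 1) * ((N : ℝ) - i) := by
  rcases Nat.lt_or_ge i N with h | h
  · rw [Finset.sum_eq_single (⟨i, h⟩ : Fin N)]
    · simp [wt]
    · intro b _ hb
      rw [if_neg (fun h1 => hb (Fin.ext h1)), mul_zero]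
    · intro h1; exact absurd (Finset.mem_univ _) h1
  · have : i = N := le_antisymm hi h
    subst this
    rw [sub_self, mul_zero]
    refine Finset.sum_eq_zero fun p _ => ?_
    rw [if_neg (ne_of_lt p.2), mul_zero]

theorem sum_ite_succ (i : ℕ) (hi : i ≤ N) :
    ∑ p : Fin N, wt p * (if p.val + 1 = i then (1 : ℝ) else 0) = (i : ℝ) * ((N : ℝ) + 1 - i) := by
  rcases Nat.eq_zero_or_pos i with h | h
  · subst h
    rw [Nat.cast_zero, zero_mul]
    refine Finset.sum_eq_zero fun p _ => ?_
    rw [if_neg (by omega), mul_zero]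
  · obtain ⟨k, rfl⟩ : ∃ k, i = k + 1 := ⟨i - 1, by omega⟩
    have h1 : ∀ p : Fin N, (if p.val + 1 = k + 1 then (1 : ℝ) else 0) = if p.val = k then 1 else 0 := by
      intro p
      simp only [Nat.add_right_cancel_iff]
    simp only [h1]
    rw [sum_ite_eq' k (by omega)]
    push_cast
    ring

theorem sum_ee (i j : Fin (N + 1)) : ∑ p : Fin N, wt p * ee i j p = 2 * ((i.val : ℝ) - j.val) := by
  have hi : i.val ≤ N := by have := i.2; omega
  have hj : j.val ≤ N := by have := j.2; omega
  have h : ∀ p : Fin N, wt p * ee i j p = wt p * (if p.val + 1 = i.val then (1 : ℝ) else 0)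
      - wt p * (if p.val = i.val then (1 : ℝ) else 0) - wt p * (if p.val + 1 = j.val then (1 : ℝ) else 0)
      + wt p * (if p.val = j.val then (1 : ℝ) else 0) := by
    intro p; unfold ee; ring
  simp only [h]
  rw [Finset.sum_add_distrib, Finset.sum_sub_distrib, Finset.sum_sub_distrib, sum_ite_succ i.val hi,
    sum_ite_eq' i.val hi, sum_ite_succ j.val hj, sum_ite_eq' j.val hj]
  ring

theorem contr_aux {L : ℝ} {f : LX le → ℝ} (hL : 0 ≤ L) (hf : Lip le L f) (X Y : LX le) (i j : Fin (N + 1)) (hij : i < j)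
    (h : Y.1 = X.1 * Equiv.swap i j) :
    TT le f X - TT le f Y ≤ L * (KK N - 1) * ((j.val : ℝ) - i.val) := by
  have h1 : TT le f X - TT le f Y =
      ∑ p : Fin N, wt p * (((f X + f (mv le p X)) - (f Y + f (mv le p Y))) / 2) := by
    unfold TT
    rw [← Finset.sum_sub_distrib]
    refine Finset.sum_congr rfl fun p _ => ?_
    ring
  have h2 : ∑ p : Fin N, wt p * (((f X + f (mv le p X)) - (f Y + f (mv le p Y))) / 2) ≤
      ∑ p : Fin N, (L * ((j.val : ℝ) - i.val) * wt p + L / 2 * (wt p * ee i j p)) := by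
    refine Finset.sum_le_sum fun p _ => ?_
    have h3 := mul_le_mul_of_nonneg_left (step hL hf X Y i j hij h p) (wt_nonneg p)
    nlinarith
  rw [h1]
  refine h2.trans (le_of_eq ?_)
  rw [Finset.sum_add_distrib, ← Finset.mul_sum, ← Finset.mul_sum, sum_wt, sum_ee]
  ring

theorem hContr : StContr := by
  intro N le L f hL hf X Y i j hij h
  rw [abs_le]
  have h' : X.1 = Y.1 * Equiv.swap i j := by
    rw [h, mul_assoc, Equiv.swap_mul_self, mul_one]
  constructor
  · have := contr_aux hL hf Y X i j hij h'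
    linarith
  · exact contr_aux hL hf X Y i j hij h

end Pool.Agent.Helper15.PE
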