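import Pool.Agent.Helper15.PE.St

/-!
# The core of the proof
-/

set_option autoImplicit false
open Classical

namespace Pool.Agent.Helper15.PE

/-- the window lemma with strict inequalities -/
def StWindow' : Prop :=
  ∀ (N : ℕ) (a : ℕ → ℕ) (x c : ℝ), Hyp N a → 0 < x → x < 1 → 0 < c → (∀ q, (a q : ℝ) * x ^ q ≤ c) →
    ∀ (i k j w l0 : ℕ), i ≤ k → k ≤ j → (a i : ℝ) * x ^ i = c → (a j : ℝ) * x ^ j = c →
      (∀ t : ℕ, gg N x (l0 + t) ≤ gg N x l0) → (∀ t : ℕ, t ≤ l0 → gg N x (l0 - t) ≤ gg N x l0) →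
      (∀ t : ℕ, w ≤ t → gg N x (l0 + t) ≤ gg N x l0 / (4 * (N + 1))) →
      (∀ t : ℕ, w ≤ t → t ≤ l0 → gg N x (l0 - t) ≤ gg N x l0 / (4 * (N + 1))) →
      ∃ q : ℕ, q < k + w ∧ k < q + w ∧ c / (2 * (N + 1)) ≤ (a q : ℝ) * x ^ q

/-- consequence of the isoperimetric inequality -/
theorem kkmin {N : ℕ} {a : ℕ → ℕ} (h : Hyp N a) {i k j : ℕ} (hik : i < k) (hkj : k ≤ j) {m : ℝ} (hm : 0 < m)
    (hi : m ≤ a i) (hj : m ≤ a j) : 6 * m ≤ (N : ℝ) * (N + 1) * (N + 2) * a k := by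
  have hjN : j ≤ N := by
    by_contra hc
    have := h.1 j (by omega)
    rw [this] at hj
    norm_num at hj
    linarith
  have h2 := h.2.1 k
  set A : ℕ := ∑ q ∈ Finset.range k, a q with hA
  set B : ℕ := ∑ q ∈ Finset.Ico k (N + 1), a q with hB
  have hsum : ∑ q ∈ Finset.range (N + 1), a q = A + B :=
    (Finset.sum_range_add_sum_Ico (fun q => a q) (by omega)).symm
  rw [hsum] at h2
  have hAi : a i ≤ A := by
    rw [hA]
    exact Finset.single_le_sum (f := fun q => a q) (fun _ _ => Nat.zero_le _) (Finset.mem_range.2 hik)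
  have hBj : a j ≤ B := by
    rw [hB]
    exact Finset.single_le_sum (f := fun q => a q) (fun _ _ => Nat.zero_le _) (Finset.mem_Ico.2 ⟨hkj, by omega⟩)
  have h3 : 12 * (A : ℝ) * B ≤ (N : ℝ) * (N + 1) * (N + 2) * a k * (A + B) := by exact_mod_cast h2
  have hA' : m ≤ A := hi.trans (by exact_mod_cast hAi)
  have hB' : m ≤ B := hj.trans (by exact_mod_cast hBj)
  have h4 : m / 2 * ((A : ℝ) + B) ≤ A * B := by nlinarith
  have h5 : 6 * m * ((A : ℝ) + B) ≤ (N : ℝ) * (N + 1) * (N + 2) * a k * (A + B) := by nlinarith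
  exact le_of_mul_le_mul_right h5 (by linarith)

/-- `sqrt x * log (1 / x) ≤ 1 - x` -/
theorem sqrt_mul_log {x : ℝ} (hx : 0 < x) (hx1 : x ≤ 1) : Real.sqrt x * (-Real.log x) ≤ 1 - x := by
  set r := Real.sqrt x with hr
  have hr0 : 0 < r := Real.sqrt_pos.2 hx
  have hrr : r * r = x := Real.mul_self_sqrt hx.le
  have hlog : Real.log x = 2 * Real.log r := by
    rw [← hrr, Real.log_mul hr0.ne' hr0.ne']; ring
  have hr1 : r ≤ 1 := by nlinarith
  have h0 : 0 ≤ Real.log r⁻¹ := Real.log_nonneg ((one_le_inv₀ hr0).2 hr1)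
  have h1 : Real.log r⁻¹ ≤ Real.sinh (Real.log r⁻¹) := Real.self_le_sinh_iff.2 h0
  rw [Real.sinh_eq, Real.exp_neg, Real.exp_log (inv_pos.2 hr0), inv_inv, Real.log_inv] at h1
  rw [hlog]
  have h2 : r * (-(2 * Real.log r)) ≤ r * (r⁻¹ - r) := mul_le_mul_of_nonneg_left (by linarith) hr0.le
  have h3 : r * (r⁻¹ - r) = 1 - x := by
    rw [mul_sub, mul_inv_cancel₀ hr0.ne', hrr]
  linarith

theorem gg_small (N : ℕ) {x : ℝ} (hx : 0 < x) (t : ℕ) : gg N x t ≤ (((N : ℝ) + 1) * x) ^ t := by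
  induction t with
  | zero => simp [gg]
  | succ t ih =>
    have h1 : ((t + 1 + N).choose N : ℝ) * ((t : ℝ) + 1) = ((t + N).choose N : ℝ) * ((t : ℝ) + 1 + N) := by
      have h2 := Nat.choose_mul_succ_eq (t + N) N
      have h3 : t + N + 1 - N = t + 1 := by omega
      rw [h3] at h2
      have h4 : (t + N).choose N * (t + N + 1) = (t + 1 + N).choose N * (t + 1) := by
        rw [h2]; congr 2; omega
      have h5 : ((t + N).choose N : ℝ) * ((t : ℝ) + N + 1) = ((t + 1 + N).choose N : ℝ) * ((t : ℝ) + 1) := by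
        exact_mod_cast h4
      linarith
    have ht : (0 : ℝ) < (t : ℝ) + 1 := by positivity
    have h6 : ((t + 1 + N).choose N : ℝ) ≤ ((t + N).choose N : ℝ) * ((N : ℝ) + 1) := by
      have h7 : (0 : ℝ) ≤ ((t + N).choose N : ℝ) := Nat.cast_nonneg _
      have h8 : ((t + 1 + N).choose N : ℝ) * ((t : ℝ) + 1) ≤ ((t + N).choose N : ℝ) * ((N : ℝ) + 1) * ((t : ℝ) + 1) := by
        rw [h1]
        have : (t : ℝ) + 1 + N ≤ ((N : ℝ) + 1) * ((t : ℝ) + 1) := by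
          have h9 : (0 : ℝ) ≤ (N : ℝ) * t := by positivity
          nlinarith
        calc _ ≤ ((t + N).choose N : ℝ) * (((N : ℝ) + 1) * ((t : ℝ) + 1)) := mul_le_mul_of_nonneg_left this h7
          _ = _ := by ring
      exact le_of_mul_le_mul_right h8 ht
    unfold gg at ih ⊢
    calc ((t + 1 + N).choose N : ℝ) * x ^ (t + 1) ≤ ((t + N).choose N : ℝ) * ((N : ℝ) + 1) * x ^ (t + 1) :=
          mul_le_mul_of_nonneg_right h6 (by positivity)
      _ = (((t + N).choose N : ℝ) * x ^ t) * (((N : ℝ) + 1) * x) := by ring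
      _ ≤ (((N : ℝ) + 1) * x) ^ t * (((N : ℝ) + 1) * x) := mul_le_mul_of_nonneg_right ih (by positivity)
      _ = _ := by ring

theorem gg_pos (N : ℕ) {x : ℝ} (hx : 0 < x) (l : ℕ) : 0 < gg N x l := by
  unfold gg
  have : 0 < (l + N).choose N := Nat.choose_pos (by omega)
  positivity

/-- the numerical estimate of the exponent -/
theorem numeric {n Λ l y T u : ℝ} (hn : 1 ≤ n) (hΛ : 0 < Λ) (hΛn : Λ ^ 3 ≤ 12 * n) (hl : l ≤ 3 * Λ) (hl0 : 0 ≤ l)
    (hy0 : 0 ≤ y) (hy : y ≤ 4 * Λ) (hu0 : 0 ≤ u) (hu : u ≤ 8 * Λ) (hT : T ≤ 2 * Real.sqrt (l * n) + 3 * l * u)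
    (hΛn' : Λ ≤ n) :
    4 * Λ + 4 * y + 4 * T ≤ 1200 * Real.sqrt (n * Λ) := by
  set R := Real.sqrt (n * Λ) with hR
  have hn0 : 0 < n := by linarith
  have hR0 : 0 ≤ R := Real.sqrt_nonneg _
  have hRR : R ^ 2 = n * Λ := Real.sq_sqrt (by positivity)
  have h1 : Λ ≤ R := by
    rw [hR]; exact Real.le_sqrt_of_sq_le (by nlinarith)
  have h2 : Real.sqrt (l * n) ≤ 2 * R := by
    have h3 : Real.sqrt (l * n) ≤ Real.sqrt (4 * (n * Λ)) := Real.sqrt_le_sqrt (by nlinarith)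
    have h4 : Real.sqrt (4 * (n * Λ)) = 2 * R := by
      rw [Real.sqrt_mul (by norm_num), show (4 : ℝ) = 2 ^ 2 by norm_num, Real.sqrt_sq (by norm_num)]
    linarith
  have h5 : Λ ^ 2 ≤ 4 * R := by
    have h6 : Λ ^ 4 ≤ 12 * (n * Λ) := by nlinarith
    have h7 : (Λ ^ 2) ^ 2 ≤ (4 * R) ^ 2 := by nlinarith
    exact le_of_sq_le_sq h7 (by positivity) 
  have h8 : l * u ≤ 24 * Λ ^ 2 := by nlinarith
  nlinarith
where
  le_of_sq_le_sq {a b : ℝ} (h : a ^ 2 ≤ b ^ 2) (hb : 0 ≤ b) : a ≤ b := by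
    nlinarith [sq_nonneg (a - b), sq_nonneg (a + b), abs_le_of_sq_le_sq' h hb |>.2]

end Pool.Agent.Helper15.PE
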