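import Pool.Agent.Helper15.PE.Core

/-!
# The core of the proof, second part
-/

set_option autoImplicit false
open Classical

namespace Pool.Agent.Helper15.PE

/-- from a good index `q` at distance at most `2 w` below `k` -/
theorem from_near {N : ℕ} {a : ℕ → ℕ} {x c : ℝ} (h : Hyp N a) (hx : 0 < x) (hx1 : x ≤ 1) (hc : 0 < c)
    {q k j w : ℕ} (hqk : q ≤ k) (hkq : k ≤ q + 2 * w) (hkj : k ≤ j) (hj : (a j : ℝ) * x ^ j = c)
    (hq : c / (2 * (N + 1)) ≤ (a q : ℝ) * x ^ q) :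
    c * x ^ (2 * w) ≤ ((N : ℝ) + 2) ^ 4 * ((a k : ℝ) * x ^ k) := by
  have hN : (0 : ℝ) ≤ N := Nat.cast_nonneg _
  have hak : (0 : ℝ) ≤ (a k : ℝ) * x ^ k := by positivity
  have hxw : x ^ (2 * w) ≤ 1 := pow_le_one₀ hx.le hx1
  have hn : (0 : ℝ) < 2 * ((N : ℝ) + 1) := by positivity
  rcases Nat.lt_or_ge q k with hlt | hge
  · -- use the isoperimetric inequality
    have hxq : 0 < x ^ q := pow_pos hx q
    have hm : 0 < c / (2 * (N + 1)) / x ^ q := by positivity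
    have h1 : c / (2 * (N + 1)) / x ^ q ≤ a q := by
      rw [div_le_iff₀ hxq]; exact hq
    have h2 : c / (2 * (N + 1)) / x ^ q ≤ a j := by
      rw [div_le_iff₀ hxq]
      have h3 : x ^ j ≤ x ^ q := pow_le_pow_of_le_one hx.le hx1 (by omega)
      have h4 : (a j : ℝ) * x ^ j ≤ (a j : ℝ) * x ^ q := mul_le_mul_of_nonneg_left h3 (Nat.cast_nonneg _)
      have h5 : c / (2 * (N + 1)) ≤ c := div_le_self hc.le (by linarith)
      linarith
    have h3 := kkmin h hlt hkj hm h1 h2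
    -- multiply by x^k
    have hxk : 0 < x ^ k := pow_pos hx k
    have h4 : x ^ k = x ^ q * x ^ (k - q) := by rw [← pow_add]; congr 1; omega
    have h5 : x ^ (2 * w) ≤ x ^ (k - q) := pow_le_pow_of_le_one hx.le hx1 (by omega)
    have h6 : 6 * (c / (2 * (N + 1))) * x ^ (k - q) ≤ (N : ℝ) * (N + 1) * (N + 2) * ((a k : ℝ) * x ^ k) := by
      have h7 := mul_le_mul_of_nonneg_right h3 hxk.le
      have h8 : 6 * (c / (2 * (N + 1)) / x ^ q) * x ^ k = 6 * (c / (2 * (N + 1))) * x ^ (k - q) := by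
        rw [h4]; field_simp
      rw [h8] at h7
      linarith
    have h9 : 6 * (c / (2 * (N + 1))) * x ^ (2 * w) ≤ (N : ℝ) * (N + 1) * (N + 2) * ((a k : ℝ) * x ^ k) :=
      (mul_le_mul_of_nonneg_left h5 (by positivity)).trans h6
    have h10 : 3 * (c * x ^ (2 * w)) = 6 * (c / (2 * (N + 1))) * x ^ (2 * w) * ((N : ℝ) + 1) := by
      field_simp; ring
    have h11 : 3 * (c * x ^ (2 * w)) ≤ (N : ℝ) * (N + 1) * (N + 2) * ((a k : ℝ) * x ^ k) * ((N : ℝ) + 1) := by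
      rw [h10]; exact mul_le_mul_of_nonneg_right h9 (by positivity)
    have h12 : (N : ℝ) * (N + 1) * (N + 2) * ((N : ℝ) + 1) ≤ ((N : ℝ) + 2) ^ 4 := by
      have : ((N : ℝ) + 2) ^ 4 - (N : ℝ) * (N + 1) * (N + 2) * ((N : ℝ) + 1) =
        4 * N ^ 3 + 19 * N ^ 2 + 30 * N + 16 := by ring
      have h13 : (0 : ℝ) ≤ 4 * (N : ℝ) ^ 3 + 19 * (N : ℝ) ^ 2 + 30 * N + 16 := by positivity
      linarith
    have h14 : 0 ≤ c * x ^ (2 * w) := by positivity
    have h15 := mul_le_mul_of_nonneg_right h12 hak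
    nlinarith
  · have e : q = k := le_antisymm hqk hge
    subst e
    rw [div_le_iff₀ hn] at hq
    have h1 : c * x ^ (2 * w) ≤ c := mul_le_of_le_one_right hc.le hxw
    have h2 : 2 * ((N : ℝ) + 1) ≤ ((N : ℝ) + 2) ^ 4 := by
      have : ((N : ℝ) + 2) ^ 4 - 2 * ((N : ℝ) + 1) = (N : ℝ) ^ 4 + 8 * N ^ 3 + 24 * N ^ 2 + 30 * N + 14 := by ring
      have h13 : (0 : ℝ) ≤ (N : ℝ) ^ 4 + 8 * (N : ℝ) ^ 3 + 24 * (N : ℝ) ^ 2 + 30 * N + 14 := by positivity
      linarith
    have h3 := mul_le_mul_of_nonneg_left h2 hak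
    nlinarith

theorem four_sq_pos (N : ℕ) : (0 : ℝ) < 4 * ((N : ℝ) + 1) ^ 2 := by positivity

/-- the case of a tiny tilt -/
theorem core_small (hW : StWindow') {N : ℕ} {a : ℕ → ℕ} {x c : ℝ} (h : Hyp N a) (hx : 0 < x)
    (hxs : x * (4 * ((N : ℝ) + 1) ^ 2) ≤ 1) (hc : 0 < c) (hall : ∀ q, (a q : ℝ) * x ^ q ≤ c)
    {i k j : ℕ} (hik : i ≤ k) (hkj : k ≤ j) (hi : (a i : ℝ) * x ^ i = c) (hj : (a j : ℝ) * x ^ j = c) :
    c ≤ 2 * ((N : ℝ) + 1) * ((a k : ℝ) * x ^ k) := by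
  have hN : (0 : ℝ) ≤ N := Nat.cast_nonneg _
  have hn1 : (1 : ℝ) ≤ (N : ℝ) + 1 := by linarith
  have hx1 : x < 1 := by
    by_contra hcon
    have h1 : 1 ≤ x := not_lt.1 hcon
    nlinarith
  have hnx : ((N : ℝ) + 1) * x ≤ 1 / (4 * (N + 1)) := by
    rw [le_div_iff₀ (by positivity)]
    nlinarith
  have hnx1 : ((N : ℝ) + 1) * x ≤ 1 := hnx.trans (by
    rw [div_le_one (by positivity)]; linarith)
  have hnx0 : 0 ≤ ((N : ℝ) + 1) * x := by positivity
  have g0 : gg N x 0 = 1 := by simp [gg]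
  obtain ⟨q, hq1, hq2, hq3⟩ := hW N a x c h hx hx1 hc hall i k j 1 0 hik hkj hi hj
    (fun t => by
      rw [zero_add, g0]
      exact (gg_small N hx t).trans (pow_le_one₀ hnx0 hnx1))
    (fun t _ => by rw [Nat.zero_sub])
    (fun t ht => by
      rw [zero_add, g0]
      refine (gg_small N hx t).trans ?_
      obtain ⟨s, rfl⟩ : ∃ s, t = s + 1 := ⟨t - 1, by omega⟩
      rw [pow_succ]
      have h1 : (((N : ℝ) + 1) * x) ^ s ≤ 1 := pow_le_one₀ hnx0 hnx1
      calc _ ≤ 1 * (((N : ℝ) + 1) * x) := mul_le_mul_of_nonneg_right h1 hnx0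
        _ ≤ _ := by rw [one_mul]; exact hnx)
    (fun t ht ht' => by omega)
  have e : q = k := by omega
  subst e
  rw [div_le_iff₀ (by positivity)] at hq3
  linarith

/-- the case of a moderate tilt -/
theorem core_large (hD : StDecay) (hW : StWindow') {N : ℕ} {a : ℕ → ℕ} {x c : ℝ} (h : Hyp N a) (hx : 0 < x)
    (hx1 : x < 1) (hxs : 1 < x * (4 * ((N : ℝ) + 1) ^ 2)) (hc : 0 < c) (hall : ∀ q, (a q : ℝ) * x ^ q ≤ c)
    {i k j : ℕ} (hik : i ≤ k) (hkj : k ≤ j) (hi : (a i : ℝ) * x ^ i = c) (hj : (a j : ℝ) * x ^ j = c) :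
    c ≤ Real.exp (1200 * Real.sqrt (((N : ℝ) + 1) * Real.log (N + 2))) * ((a k : ℝ) * x ^ k) := by
  have hN : (0 : ℝ) ≤ N := Nat.cast_nonneg _
  set n : ℝ := (N : ℝ) + 1 with hn
  have hn1 : 1 ≤ n := by linarith
  set Λ : ℝ := Real.log (N + 2) with hΛ
  set l : ℝ := Real.log (4 * n) with hl
  set y : ℝ := -Real.log x with hy
  have hlog2 : Real.log 2 ≤ Λ := Real.log_le_log (by norm_num) (by linarith)
  have hlog2' : 0 < Real.log 2 := Real.log_pos (by norm_num)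
  have hΛ0 : 0 < Λ := by linarith
  have hlogn : Real.log n ≤ Λ := Real.log_le_log (by linarith) (by linarith)
  have hlogn0 : 0 ≤ Real.log n := Real.log_nonneg hn1
  have hlog4 : Real.log 4 = 2 * Real.log 2 := by
    rw [show (4 : ℝ) = 2 ^ 2 by norm_num, Real.log_pow]; norm_num
  have hl3 : l ≤ 3 * Λ := by
    rw [hl, Real.log_mul (by norm_num) (by linarith), hlog4]; linarith
  have hl1 : 1 ≤ l := by
    have h1 : Real.log 4 ≤ l := by
      rw [hl]; exact Real.log_le_log (by norm_num) (by linarith)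
    have h2 : (0.6931471803 : ℝ) < Real.log 2 := Real.log_two_gt_d9
    rw [hlog4] at h1
    linarith
  have hy0 : 0 < y := by rw [hy]; have := Real.log_neg hx hx1; linarith
  have hy4 : y ≤ 4 * Λ := by
    have h1 : Real.log (x * (4 * n ^ 2)) ≥ 0 := Real.log_nonneg hxs.le
    rw [Real.log_mul hx.ne' (by positivity), Real.log_mul (by norm_num) (by positivity), Real.log_pow, hlog4] at h1
    push_cast at h1
    rw [hy]
    linarith
  set T : ℝ := 2 * Real.sqrt (l * (x * n)) + 3 * l with hT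
  have hT0 : 0 < T := by
    have := Real.sqrt_nonneg (l * (x * n))
    rw [hT]; linarith
  have h1x : 0 < 1 - x := by linarith
  obtain ⟨l0, hl0, hdec⟩ := hD N x hx hx1
  set s : ℕ := ⌈T / (1 - x)⌉₊ with hs
  have hsT : T / (1 - x) ≤ s := Nat.le_ceil _
  have hsT' : (s : ℝ) ≤ T / (1 - x) + 1 := (Nat.ceil_lt_add_one (by positivity)).le
  have hu : T ≤ (1 - x) * s := by
    rw [div_le_iff₀ h1x] at hsT; linarith
  have hs0 : (0 : ℝ) ≤ s := Nat.cast_nonneg _
  -- the exponent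
  have hexp : l ≤ (1 - x) * (s : ℝ) ^ 2 / (l0 + 1 + s) := by
    have hl0' : (0 : ℝ) ≤ l0 := Nat.cast_nonneg _
    rw [le_div_iff₀ (by positivity)]
    set u : ℝ := (1 - x) * s with hudef
    have h1 : (1 - x) * ((l0 : ℝ) + 1 + s) ≤ x * n + 1 + u := by
      have : x * N ≤ x * n := mul_le_mul_of_nonneg_left (by linarith) hx.le
      rw [hudef]; nlinarith
    have h2 : l * (x * n + 1 + u) ≤ u ^ 2 := by
      have hsq : Real.sqrt (l * (x * n)) ^ 2 = l * (x * n) := Real.sq_sqrt (by positivity)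
      have hsq0 := Real.sqrt_nonneg (l * (x * n))
      have hTl : l ≤ T := by rw [hT]; linarith
      have h3 : T * (T - l) ≤ u * (u - l) := by nlinarith
      have h4 : l * (x * n + 1) ≤ T * (T - l) := by
        have h5 : T * (T - l) = 4 * Real.sqrt (l * (x * n)) ^ 2 + 10 * l * Real.sqrt (l * (x * n)) + 6 * l ^ 2 := by
          rw [hT]; ring
        rw [h5, hsq]
        nlinarith
      nlinarith
    have h3 : (1 - x) * (l * ((l0 : ℝ) + 1 + s)) ≤ (1 - x) * ((1 - x) * (s : ℝ) ^ 2) := by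
      have h4 : (1 - x) * ((1 - x) * (s : ℝ) ^ 2) = u ^ 2 := by rw [hudef]; ring
      rw [h4]
      have h5 : (1 - x) * (l * ((l0 : ℝ) + 1 + s)) = l * ((1 - x) * ((l0 : ℝ) + 1 + s)) := by ring
      rw [h5]
      exact (mul_le_mul_of_nonneg_left h1 (by linarith)).trans h2
    exact le_of_mul_le_mul_left h3 h1x
  have hfac : Real.exp (-((1 - x) * (s : ℝ) ^ 2 / (l0 + 1 + s))) ≤ 1 / (4 * n) := by
    have h1 : Real.exp (-l) = 1 / (4 * n) := by
      rw [Real.exp_neg, hl, Real.exp_log (by positivity), one_div]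
    rw [← h1]
    exact Real.exp_le_exp.2 (by linarith)
  have hgp := gg_pos N hx l0
  have hstep : ∀ v : ℝ, v ≤ gg N x l0 * Real.exp (-((1 - x) * (s : ℝ) ^ 2 / (l0 + 1 + s))) →
      v ≤ gg N x l0 / (4 * (N + 1)) := by
    intro v hv
    refine hv.trans ?_
    calc _ ≤ gg N x l0 * (1 / (4 * n)) := mul_le_mul_of_nonneg_left hfac hgp.le
      _ = _ := by rw [hn]; ring
  have hwin := hW N a x c h hx hx1 hc hall
  have h0u : ∀ t : ℕ, gg N x (l0 + t) ≤ gg N x l0 := by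
    intro t
    have := (hdec 0 t (by omega)).1
    simpa using this
  have h0d : ∀ t : ℕ, t ≤ l0 → gg N x (l0 - t) ≤ gg N x l0 := by
    intro t ht
    have := (hdec 0 t (by omega)).2 ht
    simpa using this
  have hwu : ∀ t : ℕ, 2 * s ≤ t → gg N x (l0 + t) ≤ gg N x l0 / (4 * (N + 1)) := fun t ht =>
    hstep _ (hdec s t ht).1
  have hwd : ∀ t : ℕ, 2 * s ≤ t → t ≤ l0 → gg N x (l0 - t) ≤ gg N x l0 / (4 * (N + 1)) := fun t ht ht' =>
    hstep _ ((hdec s t ht).2 ht')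
  -- a good index below k
  have hgood : ∃ q : ℕ, q ≤ k ∧ k ≤ q + 2 * (2 * s) ∧ c / (2 * (N + 1)) ≤ (a q : ℝ) * x ^ q := by
    by_cases hcase : i + 2 * s ≤ k
    · obtain ⟨q, hq1, hq2, hq3⟩ := hwin i (k - 2 * s) j (2 * s) l0 (by omega) (by omega) hi hj h0u h0d hwu hwd
      exact ⟨q, by omega, by omega, hq3⟩
    · refine ⟨i, hik, by omega, ?_⟩
      rw [hi]
      exact div_le_self hc.le (by linarith)
  obtain ⟨q, hq1, hq2, hq3⟩ := hgood
  have hfin := from_near (w := 2 * s) h hx hx1.le hc hq1 hq2 hkj hj hq3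
  -- numerics
  have hx4s : x ^ (2 * (2 * s)) = Real.exp (-(4 * s * y)) := by
    have h1 : x = Real.exp (-y) := by rw [hy, neg_neg, Real.exp_log hx]
    conv_lhs => rw [h1]
    rw [← Real.exp_nat_mul]
    congr 1
    push_cast
    ring
  have hsy : (s : ℝ) * y ≤ y + (2 * Real.sqrt (l * n) + 3 * l * (y / (1 - x))) := by
    have h1 : (s : ℝ) * y ≤ (T / (1 - x) + 1) * y := mul_le_mul_of_nonneg_right hsT' hy0.le
    have h2 : (T / (1 - x) + 1) * y = y + (2 * (Real.sqrt (l * (x * n)) * y / (1 - x)) + 3 * l * (y / (1 - x))) := by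
      rw [hT]; field_simp; ring
    have h3 : Real.sqrt (l * (x * n)) * y / (1 - x) ≤ Real.sqrt (l * n) := by
      rw [div_le_iff₀ h1x]
      have h4 : Real.sqrt (l * (x * n)) = Real.sqrt (l * n) * Real.sqrt x := by
        rw [← Real.sqrt_mul (by positivity)]; congr 1; ring
      rw [h4]
      have h5 := sqrt_mul_log hx hx1.le
      calc Real.sqrt (l * n) * Real.sqrt x * y = Real.sqrt (l * n) * (Real.sqrt x * (-Real.log x)) := by rw [hy]; ring
        _ ≤ _ := mul_le_mul_of_nonneg_left h5 (Real.sqrt_nonneg _)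
    linarith
  have hu8 : y / (1 - x) ≤ 8 * Λ := by
    rw [div_le_iff₀ h1x]
    rcases le_or_gt x (1 / 2) with h2 | h2
    · nlinarith
    · have h5 := sqrt_mul_log hx hx1.le
      have h6 : (1 / 2 : ℝ) ≤ Real.sqrt x := Real.le_sqrt_of_sq_le (by nlinarith)
      have h7 : 1 / 2 * y ≤ Real.sqrt x * y := mul_le_mul_of_nonneg_right h6 hy0.le
      have h8 : Real.sqrt x * y = Real.sqrt x * (-Real.log x) := by rw [hy]
      have h9 : (0.6931471803 : ℝ) < Real.log 2 := Real.log_two_gt_d9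
      have h10 : y ≤ 2 * (1 - x) := by linarith
      have h11 : 2 ≤ 8 * Λ := by linarith
      nlinarith
  have hΛn : Λ ≤ n := by
    have := Real.log_le_sub_one_of_pos (show (0 : ℝ) < N + 2 by linarith)
    rw [hΛ, hn]; linarith
  have hΛ3 : Λ ^ 3 ≤ 12 * n := by
    have h1 := Real.pow_div_factorial_le_exp Λ hΛ0.le 3
    rw [hΛ, Real.exp_log (by linarith)] at h1
    rw [hΛ]
    have h2 : ((Nat.factorial 3 : ℕ) : ℝ) = 6 := by norm_num [Nat.factorial]
    rw [h2, div_le_iff₀ (by norm_num)] at h1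
    linarith
  have hnum := numeric (n := n) (Λ := Λ) (l := l) (y := y) (T := 2 * Real.sqrt (l * n) + 3 * l * (y / (1 - x)))
    (u := y / (1 - x)) hn1 hΛ0 hΛ3 hl3 (by linarith) hy0.le hy4 (by positivity) hu8 (le_refl _) hΛn
  have h4Λ : ((N : ℝ) + 2) ^ 4 = Real.exp (4 * Λ) := by
    rw [hΛ, show (4 : ℝ) * Real.log (N + 2) = ((4 : ℕ) : ℝ) * Real.log (N + 2) by norm_num, Real.exp_nat_mul,
      Real.exp_log (by linarith)]
  rw [hx4s, h4Λ] at hfin
  have hak : (0 : ℝ) ≤ (a k : ℝ) * x ^ k := by positivity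
  have h5 : c ≤ Real.exp (4 * s * y) * (Real.exp (4 * Λ) * ((a k : ℝ) * x ^ k)) := by
    have h6 := mul_le_mul_of_nonneg_left hfin (Real.exp_pos (4 * s * y)).le
    have h7 : Real.exp (4 * s * y) * (c * Real.exp (-(4 * s * y))) = c := by
      rw [mul_comm c, ← mul_assoc, ← Real.exp_add, add_neg_cancel, Real.exp_zero, one_mul]
    rwa [h7] at h6
  refine h5.trans ?_
  rw [← mul_assoc, ← Real.exp_add]
  refine mul_le_mul_of_nonneg_right (Real.exp_le_exp.2 ?_) hak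
  have h6 : 4 * (s : ℝ) * y = 4 * ((s : ℝ) * y) := by ring
  linarith

theorem hCore (hD : StDecay) (hW : StWindow') : StCore := by
  refine ⟨1200, by norm_num, ?_⟩
  intro N a x c h hx hx1 hc hall i k j hik hkj hi hj
  have hN : (0 : ℝ) ≤ N := Nat.cast_nonneg _
  have hak : (0 : ℝ) ≤ (a k : ℝ) * x ^ k := by positivity
  have hlog2' : (0.6931471803 : ℝ) < Real.log 2 := Real.log_two_gt_d9
  have hlog2 : Real.log 2 ≤ Real.log ((N : ℝ) + 2) := Real.log_le_log (by norm_num) (by linarith)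
  have hΛn : Real.log ((N : ℝ) + 2) ≤ (N : ℝ) + 1 := by
    have := Real.log_le_sub_one_of_pos (show (0 : ℝ) < (N : ℝ) + 2 by linarith)
    linarith
  have hR : Real.log ((N : ℝ) + 2) ≤ Real.sqrt (((N : ℝ) + 1) * Real.log (N + 2)) :=
    Real.le_sqrt_of_sq_le (by nlinarith)
  -- a cheap bound
  have hcheap : ((N : ℝ) + 2) ^ 4 ≤ Real.exp (1200 * Real.sqrt (((N : ℝ) + 1) * Real.log (N + 2))) := by
    have h4Λ : ((N : ℝ) + 2) ^ 4 = Real.exp (4 * Real.log (N + 2)) := by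
      rw [show (4 : ℝ) * Real.log (N + 2) = ((4 : ℕ) : ℝ) * Real.log (N + 2) by norm_num, Real.exp_nat_mul,
        Real.exp_log (by linarith)]
    rw [h4Λ]
    exact Real.exp_le_exp.2 (by linarith)
  rcases lt_or_eq_of_le hx1 with hlt | heq
  · rcases le_or_gt (x * (4 * ((N : ℝ) + 1) ^ 2)) 1 with h1 | h1
    · have h2 := core_small hW h hx h1 hc hall hik hkj hi hj
      refine h2.trans (mul_le_mul_of_nonneg_right (le_trans ?_ hcheap) hak)
      have : ((N : ℝ) + 2) ^ 4 - 2 * ((N : ℝ) + 1) = (N : ℝ) ^ 4 + 8 * N ^ 3 + 24 * N ^ 2 + 30 * N + 14 := by ring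
      have h13 : (0 : ℝ) ≤ (N : ℝ) ^ 4 + 8 * (N : ℝ) ^ 3 + 24 * (N : ℝ) ^ 2 + 30 * N + 14 := by positivity
      linarith
    · exact core_large hD hW h hx hlt h1 hc hall hik hkj hi hj
  · have h1 : c * x ^ (2 * 0) ≤ ((N : ℝ) + 2) ^ 4 * ((a k : ℝ) * x ^ k) := by
      have hq : c / (2 * (N + 1)) ≤ (a i : ℝ) * x ^ i := by
        rw [hi]; exact div_le_self hc.le (by linarith)
      rcases Nat.lt_or_ge i k with h2 | h2
      · have h3 : c ≤ a i := by rw [heq, one_pow, mul_one] at hi; exact hi.ge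
        have h4 : c ≤ a j := by rw [heq, one_pow, mul_one] at hj; exact hj.ge
        have h5 := kkmin h h2 hkj hc h3 h4
        rw [heq, one_pow, one_pow, mul_one, mul_one]
        have h12 : (N : ℝ) * (N + 1) * (N + 2) ≤ ((N : ℝ) + 2) ^ 4 := by
          have : ((N : ℝ) + 2) ^ 4 - (N : ℝ) * (N + 1) * (N + 2) = N ^ 4 + 7 * N ^ 3 + 21 * N ^ 2 + 30 * N + 16 := by ring
          have h13 : (0 : ℝ) ≤ (N : ℝ) ^ 4 + 7 * (N : ℝ) ^ 3 + 21 * (N : ℝ) ^ 2 + 30 * N + 16 := by positivity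
          linarith
        have h14 : (0 : ℝ) ≤ (a k : ℝ) := Nat.cast_nonneg _
        nlinarith
      · exact from_near (w := 0) h hx hx1 hc hik (by omega) hkj hj hq
    rw [mul_zero, pow_zero, mul_one] at h1
    exact h1.trans (mul_le_mul_of_nonneg_right hcheap hak)

end Pool.Agent.Helper15.PE
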