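import Pool.Agent.Helper15.PE.Iso
import Pool.Agent.Helper15.PE.Core2
import Pool.Agent.Helper48.PE.Des
import Pool.Agent.Helper36.PE.Rev
import Pool.Agent.Helper3.PE.Decay
import Pool.Agent.Helper19.PE.Tilt

/-!
# Assembly
-/

set_option autoImplicit false
open Classical

namespace Pool.Agent.Helper15.PE

open Pool.Agent.Helper14.J1 (IsLE desN)

theorem cnt_zero {N : ℕ} (le : Fin (N + 1) → Fin (N + 1) → Prop) {q : ℕ} (hq : N < q) : cnt le q = 0 := by
  unfold cnt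
  rw [Finset.card_eq_zero, Finset.filter_eq_empty_iff]
  rintro σ _ ⟨_, h⟩
  have := Pool.Agent.Helper14.J1.desN_lt σ
  omega

theorem DD_eq {N : ℕ} (le : Fin (N + 1) → Fin (N + 1) → Prop) (m : ℕ) :
    DD N (cnt le) m = (Pool.Agent.Helper14.J1.DS le m).card := by
  rw [Pool.Agent.Helper14.J1.card_DS']
  unfold DD
  refine Finset.sum_congr rfl fun q _ => ?_
  have h : cnt le q = (Finset.univ.filter (fun σ : Equiv.Perm (Fin (N + 1)) => IsLE le σ ∧ desN σ + 1 = q + 1)).card := by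
    unfold cnt
    congr 1
    ext σ
    simp only [Finset.mem_filter, Nat.add_right_cancel_iff]
  rw [h]

theorem hyp_cnt (hI : StIso) {N : ℕ} (le : Fin (N + 1) → Fin (N + 1) → Prop) : Hyp N (cnt le) := by
  refine ⟨fun q hq => cnt_zero le hq, fun k => hI N le k, fun m c d => ?_⟩
  rw [DD_eq, DD_eq, DD_eq, DD_eq]
  exact Pool.Agent.Helper14.J1.logConc_DS le m c d

theorem rev_eq {N : ℕ} (le : Fin (N + 1) → Fin (N + 1) → Prop) :
    (fun q => if q ≤ N then cnt le (N - q) else 0) = cnt (fun a b => le a.rev b.rev) := by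
  funext q
  show (if q ≤ N then cnt le (N - q) else 0) = _
  split_ifs with h
  · exact (Pool.Agent.Helper36.PE.hRev N le q h).symm
  · exact (cnt_zero _ (by omega)).symm

/-- the polynomial factor -/
theorem iso_min {N : ℕ} {a : ℕ → ℕ} (h : Hyp N a) {i k j : ℕ} (hik : i ≤ k) (hkj : k ≤ j) :
    min (a i : ℝ) (a j : ℝ) ≤ ((N : ℝ) + 1) ^ 3 * a k := by
  have hN0 : (0 : ℝ) ≤ N := Nat.cast_nonneg _
  have h1 : (1 : ℝ) ≤ ((N : ℝ) + 1) ^ 3 := one_le_pow₀ (by linarith)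
  have ha : ∀ q, (0 : ℝ) ≤ a q := fun q => Nat.cast_nonneg _
  rcases Nat.eq_or_lt_of_le hik with rfl | hik'
  · exact (min_le_left _ _).trans (by nlinarith [ha i])
  have hm0 : (0 : ℝ) ≤ min (a i : ℝ) (a j : ℝ) := le_min (ha i) (ha j)
  rcases hm0.eq_or_lt with h0 | hm
  · rw [← h0]; exact mul_nonneg (by linarith) (ha k)
  have h2 := kkmin h hik' hkj hm (min_le_left _ _) (min_le_right _ _)
  have h3 : (N : ℝ) * (N + 1) * (N + 2) * a k ≤ ((N : ℝ) + 1) ^ 3 * a k := by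
    refine mul_le_mul_of_nonneg_right ?_ (ha k)
    nlinarith
  linarith

/-- tilting costs at most `exp (N |log x|)` -/
theorem iso_tilt {N : ℕ} {a : ℕ → ℕ} (h : Hyp N a) {x : ℝ} (hx : 0 < x) {i k j : ℕ} (hik : i ≤ k) (hkj : k ≤ j) :
    min ((a i : ℝ) * x ^ i) ((a j : ℝ) * x ^ j) ≤
      ((N : ℝ) + 1) ^ 3 * Real.exp ((N + 1) * |Real.log x|) * ((a k : ℝ) * x ^ k) := by
  have ha : ∀ q, (0 : ℝ) ≤ a q := fun q => Nat.cast_nonneg _
  have hN0 : (0 : ℝ) ≤ N := Nat.cast_nonneg _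
  have hR : (0 : ℝ) ≤ ((N : ℝ) + 1) ^ 3 * Real.exp ((N + 1) * |Real.log x|) * ((a k : ℝ) * x ^ k) := by
    have := ha k
    positivity
  by_cases hjN : N < j
  · refine (min_le_right _ _).trans ?_
    rw [h.1 j hjN]
    simpa using hR
  have hm := iso_min h hik hkj
  set L := Real.log x with hL
  have hxe : x = Real.exp L := (Real.exp_log hx).symm
  have hkey : ∀ (p q : ℕ), p ≤ N → q ≤ N → x ^ p ≤ Real.exp ((N + 1) * |L|) * x ^ q := by
    intro p q hp hq
    rw [hxe, ← Real.exp_nat_mul, ← Real.exp_nat_mul, ← Real.exp_add]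
    rw [Real.exp_le_exp]
    have h1 : ((p : ℝ) - q) * L ≤ (N + 1) * |L| := by
      have h2 : ((p : ℝ) - q) * L ≤ |(p : ℝ) - q| * |L| := by rw [← abs_mul]; exact le_abs_self _
      have h3 : |(p : ℝ) - q| ≤ N + 1 := by
        rw [abs_le]
        have hp' : (p : ℝ) ≤ N := by exact_mod_cast hp
        have hq' : (q : ℝ) ≤ N := by exact_mod_cast hq
        have hp0 : (0 : ℝ) ≤ p := Nat.cast_nonneg _
        have hq0 : (0 : ℝ) ≤ q := Nat.cast_nonneg _
        constructor <;> linarith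
      exact h2.trans (mul_le_mul_of_nonneg_right h3 (abs_nonneg _))
    linarith
  have hxk : 0 ≤ Real.exp ((N + 1) * |L|) * x ^ k := by positivity
  have h1 : min ((a i : ℝ) * x ^ i) ((a j : ℝ) * x ^ j) ≤
      min (a i : ℝ) (a j : ℝ) * (Real.exp ((N + 1) * |L|) * x ^ k) := by
    rw [min_mul_of_nonneg _ _ hxk]
    exact min_le_min (mul_le_mul_of_nonneg_left (hkey i k (by omega) (by omega)) (ha i))
      (mul_le_mul_of_nonneg_left (hkey j k (by omega) (by omega)) (ha j))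
  refine h1.trans ((mul_le_mul_of_nonneg_right hm hxk).trans (le_of_eq ?_))
  ring

theorem final (hConn : StConn) (hW : StWindow') :
    ∃ C : ℝ, 0 < C ∧ ∀ (N : ℕ) (le : Fin (N + 1) → Fin (N + 1) → Prop) (x : ℝ), 0 < x →
      ∀ i k j : ℕ, i ≤ k → k ≤ j →
        min ((cnt le i : ℝ) * x ^ i) ((cnt le j : ℝ) * x ^ j) ≤
          ((N : ℝ) + 1) ^ 3 * Real.exp (C * min ((N + 1) * |Real.log x|) (Real.sqrt ((N + 1) * Real.log (N + 2)))) *
            ((cnt le k : ℝ) * x ^ k) := by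
  obtain ⟨C, hC, h⟩ := Pool.Agent.Helper19.PE.hTilt (hCore Pool.Agent.Helper3.PE.hDecay hW)
  have hI : StIso := hIso Pool.Agent.Helper48.PE.hInv Pool.Agent.Helper48.PE.hDes hConn
  refine ⟨max C 1, lt_max_of_lt_left hC, fun N le x hx i k j hik hkj => ?_⟩
  have hN0 : (0 : ℝ) ≤ N := Nat.cast_nonneg _
  have hH := hyp_cnt hI le
  have hH' : Hyp N (fun q => if q ≤ N then cnt le (N - q) else 0) := by
    rw [rev_eq]; exact hyp_cnt hI _
  have hck : (0 : ℝ) ≤ (cnt le k : ℝ) * x ^ k := by positivity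
  have hn3 : (1 : ℝ) ≤ ((N : ℝ) + 1) ^ 3 := one_le_pow₀ (by linarith)
  rcases le_total ((N + 1) * |Real.log x|) (Real.sqrt ((N + 1) * Real.log (N + 2))) with hm | hm
  · rw [min_eq_left hm]
    refine (iso_tilt hH hx hik hkj).trans ?_
    refine mul_le_mul_of_nonneg_right (mul_le_mul_of_nonneg_left (Real.exp_le_exp.2 ?_) (by linarith)) hck
    have h0 : 0 ≤ (N + 1) * |Real.log x| := by positivity
    calc (N + 1) * |Real.log x| = 1 * ((N + 1) * |Real.log x|) := (one_mul _).symm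
      _ ≤ max C 1 * ((N + 1) * |Real.log x|) := mul_le_mul_of_nonneg_right (le_max_right _ _) h0
  · rw [min_eq_right hm]
    refine (h N (cnt le) hH hH' x hx i k j hik hkj).trans ?_
    refine mul_le_mul_of_nonneg_right ?_ hck
    have h0 : 0 ≤ Real.sqrt ((N + 1) * Real.log (N + 2)) := Real.sqrt_nonneg _
    have h1 : Real.exp (C * Real.sqrt ((N + 1) * Real.log (N + 2))) ≤
        Real.exp (max C 1 * Real.sqrt ((N + 1) * Real.log (N + 2))) :=
      Real.exp_le_exp.2 (mul_le_mul_of_nonneg_right (le_max_left _ _) h0)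
    have h2 : 0 ≤ Real.exp (max C 1 * Real.sqrt ((N + 1) * Real.log (N + 2))) := (Real.exp_pos _).le
    nlinarith

/-- in the form of the frozen statement -/
theorem final' (hConn : StConn) (hW : StWindow') :
  ∃ C : ℝ, 0 < C ∧
  ∀ (n : ℕ), 1 ≤ n → ∀ (le : Fin n → Fin n → Prop),
    (∀ a, le a a) →
    (∀ a b, le a b → le b a → a = b) →
    (∀ a b c, le a b → le b c → le a c) →
    ∀ (A : ℕ → ℕ),
      (∀ m : ℕ, A m =
        ((Finset.univ : Finset (Equiv.Perm (Fin n))).filter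
          (fun σ => (∀ i j : Fin n, le (σ i) (σ j) → σ i ≠ σ j → i < j) ∧
            ((Finset.univ : Finset (Fin n × Fin n)).filter
              (fun p => p.2.val = p.1.val + 1 ∧ σ p.2 < σ p.1)).card + 1 = m)).card) →
      ∀ x : ℝ, 0 < x → ∀ i k j : ℕ, i ≤ k → k ≤ j →
        min ((A i : ℝ) * x ^ i) ((A j : ℝ) * x ^ j) ≤
          (n : ℝ) ^ 3 * Real.exp (C * min ((n : ℝ) * |Real.log x|) (Real.sqrt ((n : ℝ) * Real.log ((n : ℝ) + 1)))) *
            ((A k : ℝ) * x ^ k) := by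
  obtain ⟨C, hC, h⟩ := final hConn hW
  refine ⟨C, hC, fun n hn le _ _ _ A hA x hx i k j hik hkj => ?_⟩
  obtain ⟨N, rfl⟩ : ∃ N, n = N + 1 := ⟨n - 1, by omega⟩
  have hA0 : A 0 = 0 := by
    rw [hA, Finset.card_eq_zero, Finset.filter_eq_empty_iff]
    rintro σ _ ⟨_, h⟩
    omega
  have hAs : ∀ m, A (m + 1) = cnt le m := by
    intro m
    rw [hA]
    unfold cnt
    congr 1
    ext σ
    simp only [Finset.mem_filter, Nat.add_right_cancel_iff]
    exact Iff.rfl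
  have hR : (0 : ℝ) ≤ ((N + 1 : ℕ) : ℝ) ^ 3 * Real.exp (C * min (((N + 1 : ℕ) : ℝ) * |Real.log x|)
      (Real.sqrt (((N + 1 : ℕ) : ℝ) * Real.log (((N + 1 : ℕ) : ℝ) + 1)))) * ((A k : ℝ) * x ^ k) := by
    positivity
  rcases Nat.eq_zero_or_pos i with rfl | hi
  · refine (min_le_left _ _).trans ?_
    rw [hA0]
    simpa using hR
  obtain ⟨i, rfl⟩ : ∃ i', i = i' + 1 := ⟨i - 1, by omega⟩
  obtain ⟨k, rfl⟩ : ∃ k', k = k' + 1 := ⟨k - 1, by omega⟩
  obtain ⟨j, rfl⟩ : ∃ j', j = j' + 1 := ⟨j - 1, by omega⟩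
  have h1 := h N le x hx i k j (by omega) (by omega)
  rw [hAs, hAs, hAs]
  have h2 : ((N + 1 : ℕ) : ℝ) = (N : ℝ) + 1 := by push_cast; ring
  have h3 : ((N : ℝ) + 1 + 1) = (N : ℝ) + 2 := by ring
  rw [h2, h3]
  have h4 : min ((cnt le i : ℝ) * x ^ (i + 1)) ((cnt le j : ℝ) * x ^ (j + 1)) =
      min ((cnt le i : ℝ) * x ^ i) ((cnt le j : ℝ) * x ^ j) * x := by
    rw [min_mul_of_nonneg _ _ hx.le]
    ring_nf
  rw [h4]
  have h5 := mul_le_mul_of_nonneg_right h1 hx.le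
  refine h5.trans (le_of_eq ?_)
  ring

end Pool.Agent.Helper15.PE
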