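import Pool.Agent.Helper15.PE.Contr

/-!
# The spectral gap
-/

set_option autoImplicit false
open Classical

namespace Pool.Agent.Helper15.PE

open Pool.Agent.Helper14.J1 (IsLE desN)

/-- maximum of the Rayleigh quotient on the functions with sum zero -/
theorem rayleigh {ι : Type} [Fintype ι] (T : (ι → ℝ) →ₗ[ℝ] (ι → ℝ))
    (hsym : ∀ f g : ι → ℝ, ∑ i, f i * T g i = ∑ i, g i * T f i)
    (hsum : ∀ f : ι → ℝ, ∑ i, f i = 0 → ∑ i, T f i = 0) (B : ℝ)
    (hB : ∀ (f : ι → ℝ) (μ : ℝ), ∑ i, f i = 0 → f ≠ 0 → (∀ i, T f i = μ * f i) → μ ≤ B) :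
    ∀ f : ι → ℝ, ∑ i, f i = 0 → ∑ i, f i * T f i ≤ B * ∑ i, f i ^ 2 := by
  intro f hf
  by_cases h0 : ∑ i, f i ^ 2 = 0
  · have h1 : ∀ i, f i = 0 := by
      intro i
      have := (Finset.sum_eq_zero_iff_of_nonneg (fun i _ => sq_nonneg (f i))).1 h0 i (Finset.mem_univ i)
      exact pow_eq_zero_iff (two_ne_zero) |>.1 this
    simp [h1]
  have hpos : ∀ g : ι → ℝ, 0 ≤ ∑ i, g i ^ 2 := fun g => Finset.sum_nonneg fun i _ => sq_nonneg _
  have hfpos : 0 < ∑ i, f i ^ 2 := lt_of_le_of_ne (hpos f) (Ne.symm h0)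
  set S : Set (ι → ℝ) := {g | ∑ i, g i = 0 ∧ ∑ i, g i ^ 2 = 1} with hS
  have hScomp : IsCompact S := by
    refine Metric.isCompact_of_isClosed_isBounded ?_ ?_
    · refine IsClosed.inter ?_ ?_
      · exact isClosed_eq (continuous_finset_sum _ fun i _ => continuous_apply i) continuous_const
      · exact isClosed_eq (continuous_finset_sum _ fun i _ => (continuous_apply i).pow 2) continuous_const
    · refine (Metric.isBounded_closedBall (x := (0 : ι → ℝ)) (r := 1)).subset ?_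
      intro g hg
      rw [Metric.mem_closedBall, dist_zero_right, pi_norm_le_iff_of_nonneg zero_le_one]
      intro i
      have h1 : g i ^ 2 ≤ 1 := by
        rw [← hg.2]
        exact Finset.single_le_sum (fun i _ => sq_nonneg (g i)) (Finset.mem_univ i)
      rw [Real.norm_eq_abs]
      exact (sq_le_one_iff_abs_le_one _).1 h1
  have hTc : Continuous T := T.continuous_of_finiteDimensional
  have hQ : Continuous fun g : ι → ℝ => ∑ i, g i * T g i :=
    continuous_finset_sum _ fun i _ => (continuous_apply i).mul ((continuous_apply i).comp hTc)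
  have hnorm : ∀ g : ι → ℝ, ∑ i, g i = 0 → 0 < ∑ i, g i ^ 2 →
      (fun i => (Real.sqrt (∑ i, g i ^ 2))⁻¹ * g i) ∈ S := by
    intro g hg hg2
    constructor
    · rw [← Finset.mul_sum, hg, mul_zero]
    · have h1 : ∀ i, ((Real.sqrt (∑ i, g i ^ 2))⁻¹ * g i) ^ 2 = (∑ i, g i ^ 2)⁻¹ * g i ^ 2 := by
        intro i
        rw [mul_pow, inv_pow, Real.sq_sqrt hg2.le]
      simp only [h1]
      rw [← Finset.mul_sum, inv_mul_cancel₀ hg2.ne']
  obtain ⟨f0, hf0, hmax⟩ := hScomp.exists_isMaxOn ⟨_, hnorm f hf hfpos⟩ hQ.continuousOn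
  set μ : ℝ := ∑ i, f0 i * T f0 i with hμ
  -- homogeneous form of the maximality
  have hhom : ∀ g : ι → ℝ, ∑ i, g i = 0 → ∑ i, g i * T g i ≤ μ * ∑ i, g i ^ 2 := by
    intro g hg
    by_cases h0 : ∑ i, g i ^ 2 = 0
    · have h1 : ∀ i, g i = 0 := by
        intro i
        have := (Finset.sum_eq_zero_iff_of_nonneg (fun i _ => sq_nonneg (g i))).1 h0 i (Finset.mem_univ i)
        exact pow_eq_zero_iff (two_ne_zero) |>.1 this
      simp [h1]
    have hg2 : 0 < ∑ i, g i ^ 2 := lt_of_le_of_ne (hpos g) (Ne.symm h0)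
    have h2 := hmax (hnorm g hg hg2)
    simp only [Set.mem_setOf_eq] at h2
    have h3 : (fun i => (Real.sqrt (∑ i, g i ^ 2))⁻¹ * g i) = (Real.sqrt (∑ i, g i ^ 2))⁻¹ • g := by
      funext i; simp
    rw [h3, map_smul] at h2
    have h4 : ∑ i, ((Real.sqrt (∑ i, g i ^ 2))⁻¹ • g) i * ((Real.sqrt (∑ i, g i ^ 2))⁻¹ • T g) i =
        (∑ i, g i ^ 2)⁻¹ * ∑ i, g i * T g i := by
      rw [Finset.mul_sum]
      refine Finset.sum_congr rfl fun i _ => ?_
      simp only [Pi.smul_apply, smul_eq_mul]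
      have h5 : (Real.sqrt (∑ i, g i ^ 2))⁻¹ * (Real.sqrt (∑ i, g i ^ 2))⁻¹ = (∑ i, g i ^ 2)⁻¹ := by
        rw [← mul_inv, Real.mul_self_sqrt hg2.le]
      calc _ = ((Real.sqrt (∑ i, g i ^ 2))⁻¹ * (Real.sqrt (∑ i, g i ^ 2))⁻¹) * (g i * T g i) := by ring
        _ = _ := by rw [h5]
    have h6 : (∑ i, g i ^ 2)⁻¹ * ∑ i, g i * T g i ≤ μ := by
      rw [← h4]; exact h2
    rwa [inv_mul_le_iff₀ hg2, mul_comm] at h6
  -- the residual
  set r : ι → ℝ := fun i => T f0 i - μ * f0 i with hr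
  have hr0 : ∑ i, r i = 0 := by
    rw [hr]
    simp only
    rw [Finset.sum_sub_distrib, ← Finset.mul_sum, hsum f0 hf0.1, hf0.1, mul_zero, sub_zero]
  have hb : ∑ i, r i * T f0 i - μ * ∑ i, r i * f0 i = ∑ i, r i ^ 2 := by
    rw [Finset.mul_sum, ← Finset.sum_sub_distrib]
    refine Finset.sum_congr rfl fun i _ => ?_
    rw [hr]; ring
  have hvar : ∀ t : ℝ, 2 * t * (∑ i, r i ^ 2) ≤ t ^ 2 * (μ * ∑ i, r i ^ 2 - ∑ i, r i * T r i) := by
    intro t
    have h1 := hhom (f0 + t • r) (by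
      simp only [Pi.add_apply, Pi.smul_apply, smul_eq_mul]
      rw [Finset.sum_add_distrib, ← Finset.mul_sum, hf0.1, hr0]; ring)
    have h2 : ∑ i, (f0 + t • r) i * T (f0 + t • r) i =
        μ + 2 * t * (∑ i, r i * T f0 i) + t ^ 2 * ∑ i, r i * T r i := by
      have h3 : ∀ i, (f0 + t • r) i * T (f0 + t • r) i =
          f0 i * T f0 i + t * (f0 i * T r i) + t * (r i * T f0 i) + t ^ 2 * (r i * T r i) := by
        intro i
        rw [map_add, map_smul]
        simp only [Pi.add_apply, Pi.smul_apply, smul_eq_mul]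
        ring
      simp only [h3]
      rw [Finset.sum_add_distrib, Finset.sum_add_distrib, Finset.sum_add_distrib, ← Finset.mul_sum, ← Finset.mul_sum,
        ← Finset.mul_sum, hsym f0 r, ← hμ]
      ring
    have h4 : ∑ i, (f0 + t • r) i ^ 2 = 1 + 2 * t * (∑ i, r i * f0 i) + t ^ 2 * ∑ i, r i ^ 2 := by
      have h3 : ∀ i, (f0 + t • r) i ^ 2 = f0 i ^ 2 + 2 * t * (r i * f0 i) + t ^ 2 * r i ^ 2 := by
        intro i
        simp only [Pi.add_apply, Pi.smul_apply, smul_eq_mul]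
        ring
      simp only [h3]
      rw [Finset.sum_add_distrib, Finset.sum_add_distrib, ← Finset.mul_sum, ← Finset.mul_sum, hf0.2]
    rw [h2, h4] at h1
    have h5 : ∑ i, r i * T f0 i = ∑ i, r i ^ 2 + μ * ∑ i, r i * f0 i := by linarith
    rw [h5] at h1
    nlinarith
  have hrz : ∑ i, r i ^ 2 = 0 := by
    set b := ∑ i, r i ^ 2 with hbdef
    set c := μ * ∑ i, r i ^ 2 - ∑ i, r i * T r i with hc
    have hc0 : 0 ≤ c := by
      have := hhom r hr0
      rw [hc]; linarith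
    have hb0 : 0 ≤ b := hpos r
    by_contra hne
    have hbpos : 0 < b := lt_of_le_of_ne hb0 (Ne.symm hne)
    have h1 := hvar (b / (c + b + 1))
    have h2 : 0 < c + b + 1 := by linarith
    have h3 : 2 * (b / (c + b + 1)) * b = 2 * b ^ 2 / (c + b + 1) := by ring
    have h4 : (b / (c + b + 1)) ^ 2 * c = b ^ 2 * c / (c + b + 1) ^ 2 := by
      rw [div_pow]; ring
    rw [h3, h4, div_le_div_iff₀ h2 (by positivity)] at h1
    have h5 : 0 < b ^ 2 := by positivity
    have h6 : 0 < c + b + 1 := h2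
    have h7 : 2 * b ^ 2 * (c + b + 1) ^ 2 - b ^ 2 * c * (c + b + 1) =
        b ^ 2 * (c + b + 1) * (c + 2 * b + 2) := by ring
    have h8 : 0 < b ^ 2 * (c + b + 1) * (c + 2 * b + 2) := by positivity
    linarith
  have hri : ∀ i, T f0 i = μ * f0 i := by
    intro i
    have h1 := (Finset.sum_eq_zero_iff_of_nonneg (fun i _ => sq_nonneg (r i))).1 hrz i (Finset.mem_univ i)
    have h2 : r i = 0 := pow_eq_zero_iff (two_ne_zero) |>.1 h1
    rw [hr] at h2
    linarith
  have hne : f0 ≠ 0 := by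
    intro h
    have := hf0.2
    rw [h] at this
    simp at this
  have hμB : μ ≤ B := hB f0 μ hf0.1 hne hri
  exact (hhom f hf).trans (mul_le_mul_of_nonneg_right hμB (hpos f))

variable {N : ℕ} {le : Fin (N + 1) → Fin (N + 1) → Prop}

theorem sum_mv (hInv : StInv) (p : Fin N) (g : LX le → ℝ) : ∑ σ, g (mv le p σ) = ∑ σ, g σ := by
  refine Fintype.sum_bijective (mv le p) ?_ _ _ fun σ => rfl
  exact Function.Involutive.bijective (fun σ => hInv N le p σ)

theorem sum_TT (hInv : StInv) (f : LX le → ℝ) : ∑ σ, TT le f σ = KK N * ∑ σ, f σ := by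
  unfold TT
  rw [Finset.sum_comm]
  have h : ∀ p : Fin N, ∑ σ : LX le, wt p * ((f σ + f (mv le p σ)) / 2) = wt p * ∑ σ, f σ := by
    intro p
    rw [← Finset.mul_sum, ← Finset.sum_div, Finset.sum_add_distrib, sum_mv hInv p f]
    ring
  simp only [h]
  rw [← Finset.sum_mul, sum_wt]

theorem symm_TT (hInv : StInv) (f g : LX le → ℝ) : ∑ σ, f σ * TT le g σ = ∑ σ, g σ * TT le f σ := by
  unfold TT
  simp only [Finset.mul_sum]
  rw [Finset.sum_comm]
  conv_rhs => rw [Finset.sum_comm]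
  refine Finset.sum_congr rfl fun p _ => ?_
  have h1 : ∑ σ : LX le, f σ * g (mv le p σ) = ∑ σ : LX le, g σ * f (mv le p σ) := by
    rw [← sum_mv hInv p (fun σ => g σ * f (mv le p σ))]
    refine Finset.sum_congr rfl fun σ _ => ?_
    rw [hInv N le p σ, mul_comm]
  have h2 : ∀ u v : LX le → ℝ, ∑ σ, u σ * (wt p * ((v σ + v (mv le p σ)) / 2)) =
      wt p / 2 * (∑ σ, u σ * v σ + ∑ σ, u σ * v (mv le p σ)) := by
    intro u v
    rw [← Finset.sum_add_distrib, Finset.mul_sum]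
    refine Finset.sum_congr rfl fun σ _ => ?_
    ring
  rw [h2, h2, h1]
  congr 2
  exact Finset.sum_congr rfl fun σ _ => mul_comm _ _

/-- the operator as a linear map -/
noncomputable def TL (le : Fin (N + 1) → Fin (N + 1) → Prop) : (LX le → ℝ) →ₗ[ℝ] (LX le → ℝ) where
  toFun f := TT le f
  map_add' f g := by
    funext σ
    change TT le (f + g) σ = TT le f σ + TT le g σ
    unfold TT
    rw [← Finset.sum_add_distrib]
    refine Finset.sum_congr rfl fun p _ => ?_
    simp only [Pi.add_apply]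
    ring
  map_smul' c f := by
    funext σ
    change TT le (c • f) σ = c * TT le f σ
    unfold TT
    rw [Finset.mul_sum]
    refine Finset.sum_congr rfl fun p _ => ?_
    simp only [Pi.smul_apply, smul_eq_mul]
    ring

theorem eig_le (hConn : StConn) (f : LX le → ℝ) (μ : ℝ) (h0 : ∑ σ, f σ = 0) (hne : f ≠ 0)
    (hμ : ∀ σ, TT le f σ = μ * f σ) : μ ≤ KK N - 1 := by
  have hex : ∃ σ : LX le, f σ ≠ 0 := by
    by_contra h
    push Not at h
    exact hne (funext h)
  obtain ⟨σ0, hσ0⟩ := hex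
  haveI : Nonempty (LX le × LX le × Fin (N + 1) × Fin (N + 1)) := ⟨(σ0, σ0, 0, 0)⟩
  set φ : LX le × LX le × Fin (N + 1) × Fin (N + 1) → ℝ := fun q =>
    if q.2.2.1 < q.2.2.2 ∧ q.2.1.1 = q.1.1 * Equiv.swap q.2.2.1 q.2.2.2 then
      |f q.1 - f q.2.1| / ((q.2.2.2.val : ℝ) - q.2.2.1.val) else 0 with hφ
  obtain ⟨⟨X, Y, i, j⟩, hmax⟩ := Finite.exists_max φ
  have hφ0 : ∀ q, 0 ≤ φ q := by
    intro q
    rw [hφ]
    simp only
    split_ifs with h
    · refine div_nonneg (abs_nonneg _) (sub_nonneg.2 ?_)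
      exact_mod_cast (Fin.lt_def.1 h.1).le
    · exact le_refl _
  set L := φ (X, Y, i, j) with hL
  have hL0 : 0 ≤ L := hφ0 _
  have hlip : Lip le L f := by
    intro X' Y' i' j' hij h
    have h1 := hmax (X', Y', i', j')
    have h2 : φ (X', Y', i', j') = |f X' - f Y'| / ((j'.val : ℝ) - i'.val) := by
      rw [hφ]
      simp only
      rw [if_pos ⟨hij, h⟩]
    have h3 : (0 : ℝ) < (j'.val : ℝ) - i'.val := sub_pos.2 (by exact_mod_cast Fin.lt_def.1 hij)
    rw [h2, div_le_iff₀ h3] at h1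
    exact h1
  by_cases hLz : L = 0
  · exfalso
    have h1 : ∀ X Y : LX le, f X = f Y := by
      refine hConn N le f fun p σ => ?_
      have h2 := lip_mv hL0 hlip p σ
      rw [hLz] at h2
      have h3 : f σ - f (mv le p σ) = 0 := abs_eq_zero.1 (le_antisymm h2 (abs_nonneg _))
      linarith
    have h2 : ∑ σ : LX le, f σ = Fintype.card (LX le) * f σ0 := by
      rw [Finset.sum_congr rfl (fun σ _ => h1 σ σ0), Finset.sum_const, nsmul_eq_mul]
      rfl
    rw [h0] at h2
    have h3 : (Fintype.card (LX le) : ℝ) ≠ 0 := by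
      have : 0 < Fintype.card (LX le) := Fintype.card_pos_iff.2 ⟨σ0⟩
      exact_mod_cast this.ne'
    exact (mul_ne_zero h3 hσ0) h2.symm
  · have hLpos : 0 < L := lt_of_le_of_ne hL0 (Ne.symm hLz)
    have hcond : i < j ∧ Y.1 = X.1 * Equiv.swap i j := by
      by_contra hc
      apply hLz
      rw [hL, hφ]
      simp only
      rw [if_neg hc]
    have hval : L = |f X - f Y| / ((j.val : ℝ) - i.val) := by
      rw [hL, hφ]
      simp only
      rw [if_pos hcond]
    have h3 : (0 : ℝ) < (j.val : ℝ) - i.val := sub_pos.2 (by exact_mod_cast Fin.lt_def.1 hcond.1)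
    have h4 : |f X - f Y| = L * ((j.val : ℝ) - i.val) := by
      rw [hval]; field_simp
    have h5 := hContr N le L f hL0 hlip X Y i j hcond.1 hcond.2
    rw [hμ, hμ, ← mul_sub, abs_mul, h4] at h5
    have h6 : μ * (L * ((j.val : ℝ) - i.val)) ≤ (KK N - 1) * (L * ((j.val : ℝ) - i.val)) := by
      have h7 : μ * (L * ((j.val : ℝ) - i.val)) ≤ |μ| * (L * ((j.val : ℝ) - i.val)) :=
        mul_le_mul_of_nonneg_right (le_abs_self μ) (by positivity)
      linarith
    exact le_of_mul_le_mul_right h6 (by positivity)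

theorem hGap (hInv : StInv) (hConn : StConn) : StGap := by
  intro N le f hf
  have h1 := rayleigh (TL le) (fun f g => symm_TT hInv f g)
    (fun f hf => by
      have := sum_TT hInv f
      rw [hf, mul_zero] at this
      exact this) (KK N - 1)
    (fun f μ h0 hne hμ => eig_le hConn f μ h0 hne hμ) f hf
  have h2 : ∑ σ, f σ * (KK N * f σ - TT le f σ) = KK N * ∑ σ, f σ ^ 2 - ∑ σ, f σ * TT le f σ := by
    rw [Finset.mul_sum, ← Finset.sum_sub_distrib]
    refine Finset.sum_congr rfl fun σ _ => ?_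
    ring
  rw [h2]
  have h3 : ∑ σ, f σ * TL le f σ = ∑ σ, f σ * TT le f σ := rfl
  rw [h3] at h1
  linarith

end Pool.Agent.Helper15.PE
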