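import Pool.Agent.Helper15.PE.Gap

/-!
# The isoperimetric inequality
-/

set_option autoImplicit false
open Classical

namespace Pool.Agent.Helper15.PE

open Pool.Agent.Helper14.J1 (IsLE desN)

variable {N : ℕ} {le : Fin (N + 1) → Fin (N + 1) → Prop}

/-- indicator of the linear extensions with less than `k` descents -/
noncomputable def ind (k : ℕ) (σ : LX le) : ℝ := if desN σ.1 < k then 1 else 0

theorem sum_cnt (Q : Finset ℕ) : ∑ q ∈ Q, cnt le q =
    (Finset.univ.filter (fun σ : Equiv.Perm (Fin (N + 1)) => IsLE le σ ∧ desN σ ∈ Q)).card := by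
  rw [Finset.card_eq_sum_card_fiberwise (f := fun σ => desN σ) (t := Q)]
  · refine Finset.sum_congr rfl fun q hq => ?_
    unfold cnt
    congr 1
    ext σ
    simp only [Finset.mem_filter, Finset.mem_univ, true_and]
    constructor
    · rintro ⟨h1, h2⟩; exact ⟨⟨h1, by rw [h2]; exact hq⟩, h2⟩
    · rintro ⟨⟨h1, _⟩, h2⟩; exact ⟨h1, h2⟩
  · intro σ hσ
    have := (Finset.mem_filter.1 (Finset.mem_coe.1 hσ)).2.2
    exact this

theorem sum_LX (P : Equiv.Perm (Fin (N + 1)) → Prop) [DecidablePred P] :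
    (∑ σ : LX le, if P σ.1 then (1 : ℝ) else 0) =
      ((Finset.univ.filter (fun σ : Equiv.Perm (Fin (N + 1)) => IsLE le σ ∧ P σ)).card : ℝ) := by
  have h1 := Finset.sum_subtype (F := inferInstance) (Finset.univ.filter (fun σ : Equiv.Perm (Fin (N + 1)) => IsLE le σ))
    (p := fun σ => IsLE le σ) (fun σ => by simp) (fun σ => if P σ then (1 : ℝ) else 0)
  rw [← h1, ← Finset.sum_filter, Finset.sum_const, nsmul_eq_mul, mul_one, Finset.filter_filter]

theorem iso_real (hInv : StInv) (hDes : StDes) (hG : StGap) (k : ℕ) :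
    (∑ σ : LX le, ind k σ) * ((Fintype.card (LX le) : ℝ) - ∑ σ : LX le, ind k σ) ≤
      KK N / 2 * (cnt le k : ℝ) * (Fintype.card (LX le) : ℝ) := by
  set A : ℝ := ∑ σ : LX le, ind k σ with hA
  set S : ℝ := (Fintype.card (LX le) : ℝ) with hS
  by_cases hS0 : S = 0
  · have h1 : Fintype.card (LX le) = 0 := by rw [hS] at hS0; exact_mod_cast hS0
    haveI := Fintype.card_eq_zero_iff.1 h1
    have h2 : A = 0 := by rw [hA]; exact Finset.sum_of_isEmpty _
    rw [h2, hS0]; simp
  have hSpos : 0 < S := lt_of_le_of_ne (Nat.cast_nonneg _) (Ne.symm hS0)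
  set u : ℝ := A / S with hu
  set f : LX le → ℝ := fun σ => ind k σ - u with hf
  have hsum1 : ∑ σ : LX le, (1 : ℝ) = S := by
    rw [Finset.sum_const, nsmul_eq_mul, mul_one]; rfl
  have hf0 : ∑ σ, f σ = 0 := by
    rw [hf]
    simp only
    rw [Finset.sum_sub_distrib, ← hA]
    have : ∑ _σ : LX le, u = u * S := by
      rw [← hsum1, Finset.mul_sum]; simp
    rw [this, hu]
    field_simp
    ring
  have hg := hG N le f hf0
  have hind2 : ∀ σ : LX le, ind k σ ^ 2 = ind k σ := by
    intro σ; unfold ind; split_ifs <;> norm_num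
  have hf2 : ∑ σ, f σ ^ 2 = A * (S - A) / S := by
    have h1 : ∀ σ : LX le, f σ ^ 2 = (1 - 2 * u) * ind k σ + u ^ 2 * 1 := by
      intro σ
      rw [hf]
      simp only
      have := hind2 σ
      nlinarith
    simp only [h1]
    rw [Finset.sum_add_distrib, ← Finset.mul_sum, ← Finset.mul_sum, hsum1, ← hA, hu]
    field_simp
    ring
  have hdiff : ∀ (p : Fin N) (σ : LX le), f σ - f (mv le p σ) = ind k σ - ind k (mv le p σ) := by
    intro p σ; rw [hf]; ring
  have hexp : ∑ σ, f σ * (KK N * f σ - TT le f σ) =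
      ∑ p : Fin N, wt p / 2 * ∑ σ : LX le, f σ * (ind k σ - ind k (mv le p σ)) := by
    have h1 : ∀ σ : LX le, f σ * (KK N * f σ - TT le f σ) =
        ∑ p : Fin N, wt p / 2 * (f σ * (ind k σ - ind k (mv le p σ))) := by
      intro σ
      unfold TT
      rw [← sum_wt, Finset.sum_mul, ← Finset.sum_sub_distrib, Finset.mul_sum]
      refine Finset.sum_congr rfl fun p _ => ?_
      rw [← hdiff p σ]
      ring
    simp only [h1]
    rw [Finset.sum_comm]
    refine Finset.sum_congr rfl fun p _ => ?_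
    rw [Finset.mul_sum]
  have hcnt : (cnt le k : ℝ) = ∑ σ : LX le, if desN σ.1 = k then (1 : ℝ) else 0 := by
    rw [sum_LX (fun σ => desN σ = k)]
    unfold cnt
    congr 2
  have hp : ∀ p : Fin N, ∑ σ : LX le, f σ * (ind k σ - ind k (mv le p σ)) ≤ (cnt le k : ℝ) := by
    intro p
    have h1 : ∑ σ : LX le, f σ * (ind k σ - ind k (mv le p σ)) =
        ∑ σ : LX le, ind k (mv le p σ) * (1 - ind k σ) := by
      have h2 : ∀ σ : LX le, f σ * (ind k σ - ind k (mv le p σ)) =
          ind k σ * (1 - ind k (mv le p σ)) - u * (ind k σ - ind k (mv le p σ)) := by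
        intro σ
        rw [hf]
        simp only
        have := hind2 σ
        nlinarith
      simp only [h2]
      rw [Finset.sum_sub_distrib, ← Finset.mul_sum, Finset.sum_sub_distrib, sum_mv hInv p (fun σ => ind k σ), sub_self,
        mul_zero, sub_zero, ← sum_mv hInv p (fun σ => ind k (mv le p σ) * (1 - ind k σ))]
      refine Finset.sum_congr rfl fun σ _ => ?_
      rw [hInv N le p σ]
    rw [h1, hcnt]
    refine Finset.sum_le_sum fun σ _ => ?_
    unfold ind
    by_cases c1 : desN (mv le p σ).1 < k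
    · by_cases c2 : desN σ.1 < k
      · rw [if_pos c1, if_pos c2, sub_self, mul_zero]
        split_ifs <;> norm_num
      · have c3 : desN σ.1 = k := by
          have h3 : desN σ.1 ≤ desN (mv le p σ).1 + 1 := by
            by_cases h : le (σ.1 p.castSucc) (σ.1 p.succ)
            · rw [mv_neg h]; omega
            · rw [mv_pos h]; exact hDes N σ.1 p
          omega
        rw [if_pos c1, if_neg c2, if_pos c3]
        norm_num
    · rw [if_neg c1, zero_mul]
      split_ifs <;> norm_num
  have hfin : ∑ σ, f σ * (KK N * f σ - TT le f σ) ≤ KK N / 2 * (cnt le k : ℝ) := by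
    rw [hexp]
    calc _ ≤ ∑ p : Fin N, wt p / 2 * (cnt le k : ℝ) :=
          Finset.sum_le_sum fun p _ => mul_le_mul_of_nonneg_left (hp p) (by have := wt_nonneg p; linarith)
      _ = KK N / 2 * (cnt le k : ℝ) := by
          rw [← Finset.sum_mul, ← Finset.sum_div, sum_wt]
  rw [hf2] at hg
  have h3 := hg.trans hfin
  rwa [div_le_iff₀ hSpos] at h3

theorem hIso (hInv : StInv) (hDes : StDes) (hConn : StConn) : StIso := by
  intro N le k
  rcases Nat.lt_or_ge (N + 1) k with hk | hk
  · have : Finset.Ico k (N + 1) = ∅ := Finset.Ico_eq_empty (by omega)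
    rw [this, Finset.sum_empty, mul_zero]
    exact Nat.zero_le _
  have h1 := iso_real (le := le) hInv hDes (hGap hInv hConn) k
  have hS : (Fintype.card (LX le) : ℝ) = ((∑ q ∈ Finset.range (N + 1), cnt le q : ℕ) : ℝ) := by
    rw [sum_cnt]
    have h2 := sum_LX (le := le) (fun σ => desN σ ∈ Finset.range (N + 1))
    rw [← h2]
    have h3 : ∀ σ : LX le, (if desN σ.1 ∈ Finset.range (N + 1) then (1 : ℝ) else 0) = 1 := fun σ =>
      if_pos (Finset.mem_range.2 (Pool.Agent.Helper14.J1.desN_lt σ.1))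
    rw [Finset.sum_congr rfl (fun σ _ => h3 σ)]
    simp
  have hA : ∑ σ : LX le, ind k σ = ((∑ q ∈ Finset.range k, cnt le q : ℕ) : ℝ) := by
    rw [sum_cnt]
    unfold ind
    rw [sum_LX (fun σ => desN σ < k)]
    congr 2
    ext σ
    simp only [Finset.mem_filter, Finset.mem_range]
  have hB : ((∑ q ∈ Finset.range (N + 1), cnt le q : ℕ) : ℝ) - ((∑ q ∈ Finset.range k, cnt le q : ℕ) : ℝ) =
      ((∑ q ∈ Finset.Ico k (N + 1), cnt le q : ℕ) : ℝ) := by
    have := Finset.sum_range_add_sum_Ico (fun q => cnt le q) hk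
    rw [← this]
    push_cast
    ring
  rw [hA, hS, hB] at h1
  have h2 : (((12 * (∑ q ∈ Finset.range k, cnt le q) * (∑ q ∈ Finset.Ico k (N + 1), cnt le q) : ℕ)) : ℝ) ≤
      ((N * (N + 1) * (N + 2) * cnt le k * ∑ q ∈ Finset.range (N + 1), cnt le q : ℕ) : ℝ) := by
    push_cast at h1 ⊢
    unfold KK at h1
    nlinarith
  exact_mod_cast h2

end Pool.Agent.Helper15.PE
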