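import Pool.Agent.Helper14.J1.Ppart

/-!
# The coefficients of `W_P(x) / (1 - x)^n` are log-concave

For every labelled poset `P` on `n ≥ 1` elements the number `D m` of the `(P, ω)`-partitions with parts in
`{0, ..., m}` and largest part exactly `m` satisfies `D m * D (m + c + d) ≤ D (m + c) * D (m + d)`.  By Stanley's formula,
which is proved here as well, these numbers are the coefficients of `W_P(x) / (1 - x)^n`: they are
`∑ a_{k+1} C(m - k + n - 1, n - 1)`.

Proof idea.  Let `r ≤ s`, `p < q`.  From a pair `f` with values in `[r, q]` and maximum `q`, `g` with values in `[s, p]`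
and maximum `p` we construct injectively a pair `α`, `β` with values in `[r, p]`, `[s, q]` and maxima `p`, `q`.  First the
components of `{f > g}` with a value `f > p` are swapped.  If the smaller map `a` does not attain `p`, then the other map `b`
attains `p` outside of the swapped components, and we swap the components of `{a < b}` through these points, unless one
of them contains a value `a < s`.  In this last case we swap the components of `{b > a + c}`, `c = q - p`, with a value
`b = q` and translate them by `c`, and the points with `b = p` outside of the components swapped first are raised to `q`.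
-/

set_option autoImplicit false
open Classical

namespace Pool.Agent.Helper15.PE.LargestPart

/-- The `m`-th coefficient of the `P`-Eulerian polynomial of the labelled poset `le` on `{1..n}`:
the number of linear extensions (as permutations) with `m - 1` descents. -/
noncomputable def coeffW {n : ℕ} (le : Fin n → Fin n → Prop) (m : ℕ) : ℕ :=
  ((Finset.univ : Finset (Equiv.Perm (Fin n))).filter
    (fun σ => (∀ i j : Fin n, le (σ i) (σ j) → σ i ≠ σ j → i < j) ∧
      ((Finset.univ : Finset (Fin n × Fin n)).filter
        (fun p => p.2.val = p.1.val + 1 ∧ σ p.2 < σ p.1)).card + 1 = m)).card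

/-- The number of the maps `f` from the labelled poset to `{0, ..., m}` with maximum `m` such that `f x ≤ f y` whenever
`x` is below `y`, and `f x < f y` if moreover the label of `y` is smaller than the label of `x`. -/
noncomputable def D {n : ℕ} (le : Fin n → Fin n → Prop) (m : ℕ) : ℕ :=
  ((Fintype.piFinset (fun _ : Fin n => Finset.range (m + 1))).filter
    (fun f => (∀ x y, le x y → x ≠ y → f x ≤ f y ∧ (y < x → f x < f y)) ∧ ∃ x, f x = m)).card

theorem D_eq {n : ℕ} (le : Fin n → Fin n → Prop) (m : ℕ) :
    D le m = (Pool.Agent.Helper14.J1.DS le m).card := by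
  unfold D
  congr 1
  ext f
  rw [Finset.mem_filter, Pool.Agent.Helper14.J1.mem_DS, Fintype.mem_piFinset]
  constructor
  · rintro ⟨h1, h2⟩
    exact ⟨fun x => by have := Finset.mem_range.1 (h1 x); omega, h2⟩
  · rintro ⟨h1, h2⟩
    exact ⟨fun x => Finset.mem_range.2 (by have := h1 x; omega), h2⟩

theorem coeffW_eq {n : ℕ} (le : Fin n → Fin n → Prop) (m : ℕ) :
    coeffW le m = (Finset.univ.filter (fun σ : Equiv.Perm (Fin n) =>
      Pool.Agent.Helper14.J1.IsLE le σ ∧ Pool.Agent.Helper14.J1.desN σ + 1 = m)).card := by
  unfold coeffW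
  congr 1
  ext σ
  simp only [Finset.mem_filter]
  exact Iff.rfl

/-- For every labelled poset on `n ≥ 1` elements the coefficients
`D m = ∑_{k < n} a_{k+1} C(m + n - 1 - k, n - 1)` of `W_P(x) / (1 - x)^n` are the numbers of the `(P, ω)`-partitions with
largest part `m`, and they form a log-concave sequence without internal zeros. -/
theorem result :
  ∀ (n : ℕ), 1 ≤ n → ∀ (le : Fin n → Fin n → Prop),
    (∀ a, le a a) →
    (∀ a b, le a b → le b a → a = b) →
    (∀ a b c, le a b → le b c → le a c) →
      (∀ m : ℕ, D le m = ∑ k ∈ Finset.range n, coeffW le (k + 1) * (m + (n - 1) - k).choose (n - 1)) ∧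
      (∀ m : ℕ, 1 ≤ m → D le (m - 1) * D le (m + 1) ≤ D le m ^ 2) ∧
      (∀ m c d : ℕ, D le m * D le (m + c + d) ≤ D le (m + c) * D le (m + d)) := by
  intro n hn le _ _ _
  obtain ⟨N, rfl⟩ : ∃ N, n = N + 1 := ⟨n - 1, by omega⟩
  have h3 : ∀ m c d : ℕ, D le m * D le (m + c + d) ≤ D le (m + c) * D le (m + d) :=
    fun m c d => by
      rw [D_eq, D_eq, D_eq, D_eq]
      exact Pool.Agent.Helper14.J1.logConc_DS le m c d
  refine ⟨fun m => ?_, fun m hm => ?_, h3⟩
  · rw [D_eq, Pool.Agent.Helper14.J1.card_DS' le m]
    refine Finset.sum_congr rfl fun k _ => ?_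
    rw [coeffW_eq, Nat.add_sub_cancel]
  obtain ⟨k, rfl⟩ : ∃ k, m = k + 1 := ⟨m - 1, by omega⟩
  have := h3 k 1 1
  rw [Nat.add_sub_cancel, pow_two]
  exact this

end Pool.Agent.Helper15.PE.LargestPart
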