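import Pool.Agent.Helper14.J1.Ppart

/-!
# Approximate log-concavity of P-Eulerian polynomials: definitions and statements of the modules

`N + 1` is the number of elements of the labelled poset.  `le` is an arbitrary relation on `Fin (N + 1)`.
-/

set_option autoImplicit false
open Classical

namespace Pool.Agent.Helper15.PE

open Pool.Agent.Helper14.J1 (IsLE desN)

/-- the transposition of the neighbouring positions `p`, `p + 1` -/
def sw {N : ℕ} (p : Fin N) : Equiv.Perm (Fin (N + 1)) := Equiv.swap p.castSucc p.succ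

/-- the linear extensions of `le` -/
abbrev LX {N : ℕ} (le : Fin (N + 1) → Fin (N + 1) → Prop) : Type :=
  {σ : Equiv.Perm (Fin (N + 1)) // IsLE le σ}

/-- exchange the letters at the positions `p`, `p + 1` if the result is again a linear extension -/
noncomputable def mv {N : ℕ} (le : Fin (N + 1) → Fin (N + 1) → Prop) (p : Fin N) (σ : LX le) : LX le :=
  if h : IsLE le (σ.1 * sw p) then ⟨σ.1 * sw p, h⟩ else σ

/-- the weight `(p + 1) (N - p)` of the position `p` -/
def wt {N : ℕ} (p : Fin N) : ℝ := ((p.val : ℝ) + 1) * ((N : ℝ) - p.val)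

/-- the sum of the weights -/
noncomputable def KK (N : ℕ) : ℝ := (N : ℝ) * (N + 1) * (N + 2) / 6

/-- the operator of Bubley and Dyer (times `KK N`) -/
noncomputable def TT {N : ℕ} (le : Fin (N + 1) → Fin (N + 1) → Prop) (f : LX le → ℝ) (σ : LX le) : ℝ :=
  ∑ p : Fin N, wt p * ((f σ + f (mv le p σ)) / 2)

/-- `f` changes by at most `L (j - i)` when the letters at the positions `i < j` are exchanged -/
def Lip {N : ℕ} (le : Fin (N + 1) → Fin (N + 1) → Prop) (L : ℝ) (f : LX le → ℝ) : Prop :=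
  ∀ (X Y : LX le) (i j : Fin (N + 1)), i < j → Y.1 = X.1 * Equiv.swap i j →
    |f X - f Y| ≤ L * ((j.val : ℝ) - i.val)

/-- the number of linear extensions with `k` descents -/
noncomputable def cnt {N : ℕ} (le : Fin (N + 1) → Fin (N + 1) → Prop) (k : ℕ) : ℕ :=
  (Finset.univ.filter (fun σ : Equiv.Perm (Fin (N + 1)) => IsLE le σ ∧ desN σ = k)).card

/-! ### Part A: the linear extensions -/

/-- A1: the move is an involution.  Proof: if the swapped permutation is a linear extension the move goes there, and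
swapping again gives `σ` (as `sw p * sw p = 1`), which is a linear extension; otherwise the move is the identity. -/
def StInv : Prop :=
  ∀ (N : ℕ) (le : Fin (N + 1) → Fin (N + 1) → Prop) (p : Fin N) (σ : LX le), mv le p (mv le p σ) = σ

/-- A2: the operator contracts the Lipschitz constant (proof in helper15's file). -/
def StContr : Prop :=
  ∀ (N : ℕ) (le : Fin (N + 1) → Fin (N + 1) → Prop) (L : ℝ) (f : LX le → ℝ), 0 ≤ L →
    Lip le L f → Lip le (L * (KK N - 1)) (TT le f)

/-- A3: any two linear extensions are connected by moves.  Proof: fix `Y`; among the finitely many `Z : LX le` with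
`f Z = f X` take one that maximises `Φ Z = ∑ q, q.val * (Y⁻¹ (Z q)).val`.  If `Z ≠ Y`, then `Y⁻¹ ∘ Z` is not the identity, so it
is not strictly increasing and there is `p : Fin N` with `Y⁻¹ (Z p.castSucc) > Y⁻¹ (Z p.succ)`.  So in `Y` the letter
`Z p.succ` stands before `Z p.castSucc`, hence `¬ le (Z p.castSucc) (Z p.succ)`, and `Z * sw p` is a linear extension (all other
pairs of letters keep their relative order).  So `mv le p Z = Z * sw p` has the same value of `f`, and `Φ` grows by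
`Y⁻¹ (Z p.castSucc) - Y⁻¹ (Z p.succ) > 0`: contradiction.  Hence `Z = Y` and `f Y = f X`. -/
def StConn : Prop :=
  ∀ (N : ℕ) (le : Fin (N + 1) → Fin (N + 1) → Prop) (f : LX le → ℝ),
    (∀ (p : Fin N) (σ : LX le), f (mv le p σ) = f σ) → ∀ X Y : LX le, f X = f Y

/-- A4: a neighbouring transposition changes the number of descents by at most one.  Proof: by `desN_eq`
(`Helper14.J1.Ppart`) `desN σ = ∑ j : Fin N, u j`, `u j = 1` if `σ j.succ < σ j.castSucc`, else `0`; let `v j` be the same for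
`σ * sw p`.  Put `a = σ p.castSucc`, `b = σ p.succ`.  For `j` different from `p`, `p - 1`, `p + 1` we have `u j = v j`.
If `b < a`: `u j ≤ v j` for all `j ≠ p` (at `p - 1`, with `c` the letter before: `a < c → b < c`; at `p + 1`, with `d` the letter
after: `d < b → d < a`), so `∑ u ≤ ∑ v + 1`.  If `a < b`: `u p = 0`, `v p = 1`, and `u j ≤ v j` for `j ≠ p - 1, p, p + 1`, so
`∑ u ≤ ∑ v - 1 + 2`. -/
def StDes : Prop :=
  ∀ (N : ℕ) (σ : Equiv.Perm (Fin (N + 1))) (p : Fin N), desN σ ≤ desN (σ * sw p) + 1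

/-- A5: the spectral gap (proof from A1, A2, A3 in helper15's file). -/
def StGap : Prop :=
  ∀ (N : ℕ) (le : Fin (N + 1) → Fin (N + 1) → Prop) (f : LX le → ℝ), ∑ σ, f σ = 0 →
    ∑ σ, f σ ^ 2 ≤ ∑ σ, f σ * (KK N * f σ - TT le f σ)

/-- A6: the isoperimetric inequality (unimodality up to a polynomial factor).  Helper15's file. -/
def StIso : Prop :=
  ∀ (N : ℕ) (le : Fin (N + 1) → Fin (N + 1) → Prop) (k : ℕ),
    12 * (∑ q ∈ Finset.range k, cnt le q) * (∑ q ∈ Finset.Ico k (N + 1), cnt le q) ≤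
      N * (N + 1) * (N + 2) * cnt le k * ∑ q ∈ Finset.range (N + 1), cnt le q

/-- A7: reversing the labels.  Proof: `σ ↦ Fin.revPerm * σ` (that is `i ↦ (σ i).rev`) is a bijection from the linear extensions
of the relation `le a.rev b.rev` to those of `le`, and by `desN_eq` it turns the `q` descents into the `N - q` ascents. -/
def StRev : Prop :=
  ∀ (N : ℕ) (le : Fin (N + 1) → Fin (N + 1) → Prop) (q : ℕ), q ≤ N →
    cnt (fun a b => le a.rev b.rev) q = cnt le (N - q)

/-! ### Part B: sequences -/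

/-- the numerator sequence `a` divided by `(1 - x)^(N+1)` -/
def DD (N : ℕ) (a : ℕ → ℕ) (m : ℕ) : ℕ := ∑ q ∈ Finset.range (N + 1), a q * (m + N - q).choose N

/-- what is used about the sequence -/
def Hyp (N : ℕ) (a : ℕ → ℕ) : Prop :=
  (∀ q, N < q → a q = 0) ∧
  (∀ k, 12 * (∑ q ∈ Finset.range k, a q) * (∑ q ∈ Finset.Ico k (N + 1), a q) ≤
      N * (N + 1) * (N + 2) * a k * ∑ q ∈ Finset.range (N + 1), a q) ∧
  (∀ m c d, DD N a m * DD N a (m + c + d) ≤ DD N a (m + c) * DD N a (m + d))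

/-- the weights `C(l + N, N) x^l` -/
noncomputable def gg (N : ℕ) (x : ℝ) (l : ℕ) : ℝ := ((l + N).choose N : ℝ) * x ^ l

/-- B1: decay of `gg` away from its mode.  Proof: `(l + 1) gg (l + 1) = x (N + 1 + l) gg l`.  Let `l0` be the least `l` with
`x (N + 1 + l) ≤ l + 1` (it exists as `x < 1`).  If `l0 ≥ 1` then `l0 < x (N + l0)`, so `l0 (1 - x) ≤ x N` (trivial for `l0 = 0`).
Upwards: `x (N + 1 + l0 + u) ≤ l0 + 1 + x u = (l0 + 1 + u) - (1 - x) u`, so
`gg (l0 + u + 1) ≤ gg (l0 + u) * (1 - (1 - x) u / (l0 + 1 + u)) ≤ gg (l0 + u) * exp (-((1 - x) u / (l0 + 1 + u)))`.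
Downwards, `u < l0`: with `l = l0 - 1 - u`: `x (N + 1 + l) = x (N + l0) - x u ≥ l0 - x u`, so
`gg l = gg (l + 1) * (l + 1) / (x (N + 1 + l)) ≤ gg (l + 1) * (l0 - u) / (l0 - x u) ≤ gg (l + 1) * (1 - (1 - x) u / l0)
≤ gg (l + 1) * exp (-((1 - x) u / (l0 + 1 + u)))`.
So every step does not increase `gg`, and each of the `s` steps `u = s, ..., 2 s - 1` has a factor at most
`exp (-((1 - x) s / (l0 + 1 + s)))`, because `u / (l0 + 1 + u)` increases with `u`. -/
def StDecay : Prop :=
  ∀ (N : ℕ) (x : ℝ), 0 < x → x < 1 → ∃ l0 : ℕ, (l0 : ℝ) * (1 - x) ≤ x * N ∧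
    ∀ s t : ℕ, 2 * s ≤ t →
      gg N x (l0 + t) ≤ gg N x l0 * Real.exp (-((1 - x) * s ^ 2 / (l0 + 1 + s))) ∧
      (t ≤ l0 → gg N x (l0 - t) ≤ gg N x l0 * Real.exp (-((1 - x) * s ^ 2 / (l0 + 1 + s))))

/-- B2: the window lemma (proof in helper15's file).  If all `a q x^q` are at most `c`, with equality at `i` and `j`, then near every `k` between `i` and
`j` there is a `q` with `a q x^q ≥ c / (2 (N + 1))`. -/
def StWindow : Prop :=
  ∀ (N : ℕ) (a : ℕ → ℕ) (x c : ℝ), Hyp N a → 0 < x → x < 1 → 0 < c → (∀ q, (a q : ℝ) * x ^ q ≤ c) →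
    ∀ (i k j w l0 : ℕ), i ≤ k → k ≤ j → (a i : ℝ) * x ^ i = c → (a j : ℝ) * x ^ j = c →
      (∀ t : ℕ, gg N x (l0 + t) ≤ gg N x l0) → (∀ t : ℕ, t ≤ l0 → gg N x (l0 - t) ≤ gg N x l0) →
      (∀ t : ℕ, w ≤ t → gg N x (l0 + t) ≤ gg N x l0 / (4 * (N + 1))) →
      (∀ t : ℕ, w ≤ t → t ≤ l0 → gg N x (l0 - t) ≤ gg N x l0 / (4 * (N + 1))) →
      ∃ q : ℕ, q ≤ k + w ∧ k ≤ q + w ∧ c / (2 * (N + 1)) ≤ (a q : ℝ) * x ^ q

/-- B3: the core of the proof (helper15's file). -/
def StCore : Prop :=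
  ∃ C : ℝ, 0 < C ∧ ∀ (N : ℕ) (a : ℕ → ℕ) (x c : ℝ), Hyp N a → 0 < x → x ≤ 1 → 0 < c →
    (∀ q, (a q : ℝ) * x ^ q ≤ c) → ∀ i k j : ℕ, i ≤ k → k ≤ j → (a i : ℝ) * x ^ i = c → (a j : ℝ) * x ^ j = c →
      c ≤ Real.exp (C * Real.sqrt ((N + 1) * Real.log (N + 2))) * ((a k : ℝ) * x ^ k)

/-- B4: from the best chord to all chords, both directions of the tilt.  To prove: `StCore → StTilt` (same `C`).
Proof.  Let `E = exp (...)  ≥ 1`, `n = N + 1`.  We may assume `i < k < j` (if `k = i` or `k = j` the minimum is at most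
`a k x^k ≤ E a k x^k`) and `a i > 0`, `a j > 0` (else the minimum is `0`), so `j ≤ N`.  Among the finitely many pairs `(i', j')` with
`i' < k < j' ≤ N` and `a i', a j' > 0` choose one for which the chord value
`ch (i', j') = ((j' - k) log (a i') + (k - i') log (a j')) / (j' - i')` is maximal.  Let `y = exp ((log (a i') - log (a j')) / (j' - i'))` and
`c = a i' * y ^ i' = a j' * y ^ j'`; then `log c = ch (i', j') + k log y`.  Claim: `a k * y ^ k ≥ c / E`.  If `a k * y ^ k > c` this is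
clear.  Otherwise `a q * y ^ q ≤ c` for ALL `q`: clear if `a q = 0` or `q = k`; if `q < k` and `a q y^q > c` then the chord
`(q, j')` is higher at `k` than `(i', j')`; if `q > k` then the chord `(i', q)` is.  If `y ≤ 1` apply `StCore` to `a, y, c, i', k, j'`.
If `y > 1` apply it to the reversed sequence `b q = a (N - q)` (`q ≤ N`), the tilt `1 / y`, the constant `c / y ^ N` and the
indices `N - j' ≤ N - k ≤ N - i'` (note `b q * (1/y) ^ q = a (N - q) * y ^ (N - q) / y ^ N`).
Finally for the given `x, i, j`: `min (a i x^i) (a j x^j) ≤ exp (ch (i, j) + k log x)` (weighted geometric mean, weights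
`(j - k)/(j - i)` and `(k - i)/(j - i)`) `≤ exp (ch (i', j') + k log x) = c / y ^ k * x ^ k ≤ E * a k * x ^ k`. -/
def StTilt : Prop :=
  ∃ C : ℝ, 0 < C ∧ ∀ (N : ℕ) (a : ℕ → ℕ), Hyp N a → Hyp N (fun q => if q ≤ N then a (N - q) else 0) →
    ∀ (x : ℝ), 0 < x → ∀ i k j : ℕ, i ≤ k → k ≤ j →
      min ((a i : ℝ) * x ^ i) ((a j : ℝ) * x ^ j) ≤
        Real.exp (C * Real.sqrt ((N + 1) * Real.log (N + 2))) * ((a k : ℝ) * x ^ k)

end Pool.Agent.Helper15.PE
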